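import Mathlib

/-!
# MP_7c50a9_lc, 3.2: Cauchy integrals over circles around zero
-/

set_option autoImplicit false

open Set Metric Filter Topology

namespace Pool.Agent.QC.An

/-- Cauchy's formula in an annulus. -/
theorem cauchy_annulus {f : ℂ → ℂ} {a b r ρ : ℝ} (hr0 : 0 < r) (har : a < r) (hρb : ρ < b)
    (hf : DifferentiableOn ℂ f {w | a < ‖w‖ ∧ ‖w‖ < b}) {z : ℂ} (h1 : r < ‖z‖) (h2 : ‖z‖ < ρ) :
    2 * Real.pi * Complex.I * f z =
      (∮ w in C(0, ρ), (w - z)⁻¹ * f w) - ∮ w in C(0, r), (w - z)⁻¹ * f w := by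
  have hrρ : r ≤ ρ := (h1.trans h2).le
  have hρ0 : 0 < ρ := hr0.trans_le hrρ
  have hopen : IsOpen {w : ℂ | a < ‖w‖ ∧ ‖w‖ < b} :=
    (isOpen_lt continuous_const continuous_norm).inter (isOpen_lt continuous_norm continuous_const)
  have hsub : closedBall (0 : ℂ) ρ \ ball 0 r ⊆ {w : ℂ | a < ‖w‖ ∧ ‖w‖ < b} := by
    rintro w ⟨hw1, hw2⟩
    rw [mem_closedBall_zero_iff] at hw1
    rw [mem_ball_zero_iff, not_lt] at hw2
    exact ⟨har.trans_le hw2, hw1.trans_lt hρb⟩
  have hnz : closedBall (0 : ℂ) ρ \ ball 0 r ∈ 𝓝 z := by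
    have ho : IsOpen (ball (0 : ℂ) ρ \ closedBall 0 r) := isOpen_ball.sdiff isClosed_closedBall
    refine mem_of_superset (ho.mem_nhds ⟨by simpa using h2, ?_⟩) ?_
    · rw [mem_closedBall_zero_iff, not_le]
      exact h1
    · exact fun w hw => ⟨ball_subset_closedBall hw.1, fun h => hw.2 (ball_subset_closedBall h)⟩
  have hzan : z ∈ {w : ℂ | a < ‖w‖ ∧ ‖w‖ < b} := hsub (mem_of_mem_nhds hnz)
  have key : (∮ w in C(0, ρ), dslope f z w) = ∮ w in C(0, r), dslope f z w := by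
    refine Complex.circleIntegral_eq_of_differentiable_on_annulus_off_countable hr0 hrρ
      (s := {z}) (countable_singleton z) ?_ ?_
    · rw [continuousOn_dslope hnz]
      exact ⟨hf.continuousOn.mono hsub, hf.differentiableAt (hopen.mem_nhds hzan)⟩
    · rintro w ⟨⟨hw1, hw2⟩, hw3⟩
      rw [differentiableAt_dslope_of_ne hw3]
      refine hf.differentiableAt (hopen.mem_nhds (hsub ⟨ball_subset_closedBall hw1, fun h => hw2 ?_⟩))
      exact ball_subset_closedBall h
  have hsph : ∀ s : ℝ, 0 < s → s ≠ ‖z‖ → a < s → s < b →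
      (∮ w in C(0, s), dslope f z w) =
        (∮ w in C(0, s), (w - z)⁻¹ * f w) - (∮ w in C(0, s), (w - z)⁻¹) * f z := by
    intro s hs hsz has hsb
    have hne : ∀ w ∈ sphere (0 : ℂ) s, w - z ≠ 0 := by
      intro w hw h
      rw [mem_sphere_zero_iff_norm] at hw
      rw [sub_eq_zero.mp h] at hw
      exact hsz hw.symm
    have hc1 : ContinuousOn (fun w : ℂ => (w - z)⁻¹) (sphere 0 s) :=
      (continuousOn_id.sub continuousOn_const).inv₀ hne
    have hc2 : ContinuousOn f (sphere 0 s) := by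
      refine hf.continuousOn.mono fun w hw => ?_
      rw [mem_sphere_zero_iff_norm] at hw
      exact ⟨by rw [hw]; exact has, by rw [hw]; exact hsb⟩
    have i1 : CircleIntegrable (fun w => (w - z)⁻¹ * f w) 0 s :=
      (hc1.mul hc2).circleIntegrable hs.le
    have i2 : CircleIntegrable (fun w => f z * (w - z)⁻¹) 0 s :=
      (continuousOn_const.mul hc1).circleIntegrable hs.le
    rw [mul_comm (∮ w in C(0, s), (w - z)⁻¹), ← circleIntegral.integral_const_mul,
      ← circleIntegral.integral_sub i1 i2]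
    refine circleIntegral.integral_congr hs.le fun w hw => ?_
    have hwz : w ≠ z := fun h => hne w hw (sub_eq_zero.mpr h)
    rw [dslope_of_ne _ hwz, slope_def_field, div_eq_mul_inv]
    ring
  have e1 : (∮ w in C(0, ρ), (w - z)⁻¹) = 2 * Real.pi * Complex.I :=
    circleIntegral.integral_sub_inv_of_mem_ball (by simpa using h2)
  have e2 : (∮ w in C(0, r), (w - z)⁻¹) = 0 := by
    refine Complex.circleIntegral_eq_zero_of_differentiable_on_off_countable hr0.le
      (s := ∅) countable_empty ?_ ?_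
    · refine (continuousOn_id.sub continuousOn_const).inv₀ ?_
      intro w hw h
      rw [mem_closedBall_zero_iff] at hw
      have h3 : w = z := sub_eq_zero.mp h
      rw [h3] at hw
      exact absurd hw (not_le.mpr h1)
    · rintro w ⟨hw, -⟩
      refine (differentiableAt_id.sub_const z).inv ?_
      intro h
      rw [mem_ball_zero_iff] at hw
      have h3 : w = z := sub_eq_zero.mp h
      rw [h3] at hw
      exact absurd hw (not_lt.mpr h1.le)
  have hz0 : 0 < ‖z‖ := hr0.trans h1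
  have ha : a < ‖z‖ := har.trans h1
  rw [hsph ρ hρ0 h2.ne' (har.trans_le hrρ) hρb, hsph r hr0 h1.ne har (hrρ.trans_lt hρb), e1, e2]
    at key
  linear_combination -key

/-- The Cauchy integral of an OUT function vanishes inside. -/
theorem out_integral_zero {g : ℂ → ℂ} {R₀ R₁ ρ C : ℝ} (hR₀ : 0 ≤ R₀) (hρ : R₀ < ρ)
    (hg : DifferentiableOn ℂ g {w | R₀ < ‖w‖}) (hb : ∀ w, R₁ ≤ ‖w‖ → ‖w‖ * ‖g w‖ ≤ C)
    {z : ℂ} (hz : ‖z‖ < ρ) : (∮ w in C(0, ρ), (w - z)⁻¹ * g w) = 0 := by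
  have hρ0 : 0 < ρ := hR₀.trans_lt hρ
  have hopen : IsOpen {w : ℂ | R₀ < ‖w‖} := isOpen_lt continuous_const continuous_norm
  have hC : 0 ≤ C := by
    have h1 := hb ((max R₁ 0 : ℝ) : ℂ) (by
      rw [Complex.norm_real, Real.norm_of_nonneg (le_max_right _ _)]; exact le_max_left _ _)
    exact (mul_nonneg (norm_nonneg _) (norm_nonneg _)).trans h1
  -- all circles give the same integral
  have h1 : ∀ R, ρ ≤ R → (∮ w in C(0, R), (w - z)⁻¹ * g w) = ∮ w in C(0, ρ), (w - z)⁻¹ * g w := by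
    intro R hR
    have hd : ∀ w ∈ closedBall (0 : ℂ) R \ ball 0 ρ,
        DifferentiableAt ℂ (fun w => (w - z)⁻¹ * g w) w := by
      rintro w ⟨-, hw⟩
      rw [mem_ball_zero_iff, not_lt] at hw
      refine ((differentiableAt_id.sub_const z).inv ?_).mul
        (hg.differentiableAt (hopen.mem_nhds (hρ.trans_le hw)))
      intro h
      have h3 : w = z := sub_eq_zero.mp h
      rw [h3] at hw
      exact absurd hz (not_lt.mpr hw)
    refine Complex.circleIntegral_eq_of_differentiable_on_annulus_off_countable hρ0 hR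
      (s := ∅) countable_empty (fun w hw => (hd w hw).continuousAt.continuousWithinAt) ?_
    rintro w ⟨⟨hw1, hw2⟩, -⟩
    exact hd w ⟨ball_subset_closedBall hw1, fun h => hw2 (ball_subset_closedBall h)⟩
  -- estimate
  have h2 : ∀ R, max ρ (max R₁ (2 * ‖z‖ + 1)) ≤ R →
      ‖∮ w in C(0, ρ), (w - z)⁻¹ * g w‖ ≤ 4 * Real.pi * C / R := by
    intro R hR
    have a1 : ρ ≤ R := (le_max_left _ _).trans hR
    have a2 : R₁ ≤ R := (le_max_left _ _).trans ((le_max_right _ _).trans hR)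
    have a3 : 2 * ‖z‖ + 1 ≤ R := (le_max_right _ _).trans ((le_max_right _ _).trans hR)
    have hR0 : 0 < R := hρ0.trans_le a1
    rw [← h1 R a1]
    have h3 : ∀ w ∈ sphere (0 : ℂ) R, ‖(w - z)⁻¹ * g w‖ ≤ 2 * C / R ^ 2 := by
      intro w hw
      rw [mem_sphere_zero_iff_norm] at hw
      have b1 : ‖w‖ * ‖g w‖ ≤ C := hb w (by rw [hw]; exact a2)
      rw [hw] at b1
      have b2 : R / 2 ≤ ‖w - z‖ := by
        have := norm_sub_norm_le w z
        rw [hw] at this
        linarith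
      rw [norm_mul, norm_inv]
      have b3 : ‖w - z‖⁻¹ ≤ (R / 2)⁻¹ := inv_anti₀ (by positivity) b2
      have b4 : ‖g w‖ ≤ C / R := by
        rw [le_div_iff₀ hR0]
        linarith
      calc ‖w - z‖⁻¹ * ‖g w‖ ≤ (R / 2)⁻¹ * (C / R) :=
            mul_le_mul b3 b4 (norm_nonneg _) (by positivity)
        _ = 2 * C / R ^ 2 := by field_simp
    have h4 := circleIntegral.norm_integral_le_of_norm_le_const hR0.le h3
    refine h4.trans (le_of_eq ?_)
    field_simp
    ring
  have h5 : Tendsto (fun R : ℝ => 4 * Real.pi * C / R) atTop (𝓝 0) :=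
    tendsto_const_nhds.div_atTop tendsto_id
  have h6 : ‖∮ w in C(0, ρ), (w - z)⁻¹ * g w‖ ≤ 0 :=
    ge_of_tendsto h5 (eventually_atTop.mpr ⟨_, h2⟩)
  exact norm_le_zero_iff.mp h6

/-- Continuity of circle integrals with a parameter. -/
theorem circle_param_cont {X : Type*} [TopologicalSpace X] {S : Set X} {ρ : ℝ} (hρ : 0 ≤ ρ)
    {Φ : X → ℂ → ℂ} (h : ContinuousOn (Function.uncurry Φ) (S ×ˢ sphere (0 : ℂ) ρ)) :
    ContinuousOn (fun x => ∮ w in C(0, ρ), Φ x w) S := by
  rw [continuousOn_iff_continuous_domRestrict]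
  have h1 : Continuous (Function.uncurry fun (x : S) (θ : ℝ) =>
      deriv (circleMap 0 ρ) θ • Φ x (circleMap 0 ρ θ)) := by
    have h2 : Continuous fun p : S × ℝ => Function.uncurry Φ (p.1, circleMap 0 ρ p.2) := by
      refine h.comp_continuous (by fun_prop) ?_
      rintro ⟨x, θ⟩
      exact ⟨x.2, circleMap_mem_sphere 0 hρ θ⟩
    have h3 : Continuous fun p : S × ℝ => deriv (circleMap 0 ρ) p.2 := by
      simp only [deriv_circleMap]
      fun_prop
    exact h3.smul h2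
  exact intervalIntegral.continuous_parametric_intervalIntegral_of_continuous h1
    (continuous_const (y := 2 * Real.pi))

/-- Derivative of circle integrals with a parameter. -/
theorem circle_param_deriv {ρ δ : ℝ} (hρ : 0 ≤ ρ) (hδ : 0 < δ) {Φ Φ' : ℂ → ℂ → ℂ}
    (h : ContinuousOn (Function.uncurry Φ) (ball 0 δ ×ˢ sphere (0 : ℂ) ρ))
    (h' : ContinuousOn (Function.uncurry Φ') (ball 0 δ ×ˢ sphere (0 : ℂ) ρ))
    (hd : ∀ t ∈ ball (0 : ℂ) δ, ∀ w ∈ sphere (0 : ℂ) ρ, HasDerivAt (fun t => Φ t w) (Φ' t w) t) :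
    HasDerivAt (fun t => ∮ w in C(0, ρ), Φ t w) (∮ w in C(0, ρ), Φ' 0 w) 0 := by
  have hK : IsCompact (closedBall (0 : ℂ) (δ / 2) ×ˢ sphere (0 : ℂ) ρ) :=
    (isCompact_closedBall _ _).prod (isCompact_sphere _ _)
  have hsub : closedBall (0 : ℂ) (δ / 2) ⊆ ball 0 δ := closedBall_subset_ball (by linarith)
  obtain ⟨B, hB⟩ := hK.exists_bound_of_continuousOn (h'.mono (prod_mono hsub le_rfl))
  have hcont : ∀ (Ψ : ℂ → ℂ → ℂ),
      ContinuousOn (Function.uncurry Ψ) (ball 0 δ ×ˢ sphere (0 : ℂ) ρ) → ∀ t ∈ ball (0 : ℂ) δ,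
      Continuous fun θ : ℝ => deriv (circleMap 0 ρ) θ • Ψ t (circleMap 0 ρ θ) := by
    intro Ψ hΨ t ht
    have h2 : Continuous fun θ : ℝ => Function.uncurry Ψ (t, circleMap 0 ρ θ) :=
      hΨ.comp_continuous (by fun_prop) fun θ => ⟨ht, circleMap_mem_sphere 0 hρ θ⟩
    have h3 : Continuous fun θ : ℝ => deriv (circleMap 0 ρ) θ := by
      simp only [deriv_circleMap]
      fun_prop
    exact h3.smul h2
  have h0 : (0 : ℂ) ∈ ball (0 : ℂ) δ := mem_ball_self hδ
  refine (intervalIntegral.hasDerivAt_integral_of_dominated_loc_of_deriv_le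
    (s := closedBall (0 : ℂ) (δ / 2)) (bound := fun _ => ρ * B)
    (F := fun t θ => deriv (circleMap 0 ρ) θ • Φ t (circleMap 0 ρ θ))
    (F' := fun t θ => deriv (circleMap 0 ρ) θ • Φ' t (circleMap 0 ρ θ))
    (closedBall_mem_nhds _ (by linarith)) ?_ ?_ ?_ ?_ ?_ ?_).2
  · filter_upwards [ball_mem_nhds (0 : ℂ) hδ] with t ht
    exact (hcont Φ h t ht).aestronglyMeasurable
  · exact (hcont Φ h 0 h0).intervalIntegrable _ _
  · exact (hcont Φ' h' 0 h0).aestronglyMeasurable
  · refine Eventually.of_forall fun θ _ t ht => ?_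
    rw [norm_smul, deriv_circleMap, norm_mul, Complex.norm_I, mul_one, norm_circleMap_zero,
      abs_of_nonneg hρ]
    exact mul_le_mul_of_nonneg_left (hB (t, circleMap 0 ρ θ) ⟨ht, circleMap_mem_sphere 0 hρ θ⟩) hρ
  · exact intervalIntegrable_const
  · refine Eventually.of_forall fun θ _ t ht => ?_
    exact (hd t (hsub ht) _ (circleMap_mem_sphere 0 hρ θ)).const_smul (deriv (circleMap 0 ρ) θ)

/-- Line derivatives of the integrals of `(w - z) ^ k * j (q, w)` over a circle around zero. -/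
theorem kernel_deriv {E : Type*} [NormedAddCommGroup E] [NormedSpace ℂ E] {N : Set E}
    (hN : IsOpen N) {A : Set ℂ} {ρ : ℝ} (hρ : 0 < ρ) (hA : sphere (0 : ℂ) ρ ⊆ A)
    {j dq dz : E × ℂ → ℂ} {vq : E} {vz : ℂ} (hj : ContinuousOn j (N ×ˢ A))
    (hdq : ContinuousOn dq (N ×ˢ A)) (hdz : ContinuousOn dz (N ×ˢ A))
    (hq : ∀ p ∈ N ×ˢ A, HasLineDerivAt ℂ j (dq p) p (vq, 0))
    (hz : ∀ p ∈ N ×ˢ A, HasLineDerivAt ℂ j (dz p) p (0, 1)) (k : ℤ) {q : E} (hqN : q ∈ N) {z : ℂ}
    (hzρ : ‖z‖ < ρ) :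
    HasLineDerivAt ℂ (fun p : E × ℂ => ∮ w in C(0, ρ), (w - p.2) ^ k * j (p.1, w))
      (∮ w in C(0, ρ), (w - z) ^ k * (dq (q, w) + vz * dz (q, w))) (q, z) (vq, vz) := by
  have hcq : Continuous fun t : ℂ => q + t • vq := by fun_prop
  have hcz : Continuous fun t : ℂ => z + t • vz := by fun_prop
  obtain ⟨δ, hδ, hball⟩ : ∃ δ > 0, ∀ t ∈ ball (0 : ℂ) δ, q + t • vq ∈ N ∧ ‖z + t • vz‖ < ρ := by
    have h1 : ∀ᶠ t : ℂ in 𝓝 0, q + t • vq ∈ N := by
      refine hcq.continuousAt.eventually (hN.mem_nhds ?_)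
      simpa using hqN
    have h2 : ∀ᶠ t : ℂ in 𝓝 0, ‖z + t • vz‖ < ρ := by
      have h3 : ∀ᶠ w : ℂ in 𝓝 (z + (0 : ℂ) • vz), ‖w‖ < ρ := by
        refine (isOpen_lt continuous_norm continuous_const).mem_nhds ?_
        simpa using hzρ
      exact hcz.continuousAt.eventually h3
    obtain ⟨δ, hδ, h3⟩ := Metric.eventually_nhds_iff_ball.mp (h1.and h2)
    exact ⟨δ, hδ, h3⟩
  have hne : ∀ t ∈ ball (0 : ℂ) δ, ∀ w ∈ sphere (0 : ℂ) ρ, w - (z + t • vz) ≠ 0 := by
    intro t ht w hw h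
    rw [mem_sphere_zero_iff_norm] at hw
    have h1 := (hball t ht).2
    rw [← sub_eq_zero.mp h, hw] at h1
    exact lt_irrefl _ h1
  have hmapc : Continuous fun x : ℂ × ℂ => (q + x.1 • vq, x.2) := by fun_prop
  have hmaps : MapsTo (fun x : ℂ × ℂ => (q + x.1 • vq, x.2)) (ball 0 δ ×ˢ sphere (0 : ℂ) ρ)
      (N ×ˢ A) := fun x hx => ⟨(hball x.1 hx.1).1, hA hx.2⟩
  have hpow : ∀ m : ℤ, ContinuousOn (fun x : ℂ × ℂ => (x.2 - (z + x.1 • vz)) ^ m)
      (ball 0 δ ×ˢ sphere (0 : ℂ) ρ) := by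
    intro m
    refine ContinuousOn.zpow₀ (by fun_prop) m fun x hx => ?_
    exact Or.inl (hne x.1 hx.1 x.2 hx.2)
  -- derivative of the parametric integral
  have h1 : HasDerivAt (fun t : ℂ => ∮ w in C(0, ρ), (w - (z + t • vz)) ^ k * j (q + t • vq, w))
      (∮ w in C(0, ρ), ((k : ℂ) * (w - (z + (0 : ℂ) • vz)) ^ (k - 1) * (-vz)) *
        j (q + (0 : ℂ) • vq, w) + (w - (z + (0 : ℂ) • vz)) ^ k * dq (q + (0 : ℂ) • vq, w)) 0 := by
    refine circle_param_deriv (Φ := fun t w => (w - (z + t • vz)) ^ k * j (q + t • vq, w))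
      (Φ' := fun t w => ((k : ℂ) * (w - (z + t • vz)) ^ (k - 1) * (-vz)) * j (q + t • vq, w) +
        (w - (z + t • vz)) ^ k * dq (q + t • vq, w)) hρ.le hδ ?_ ?_ ?_
    · exact (hpow k).mul (hj.comp hmapc.continuousOn hmaps)
    · exact (((continuousOn_const.mul (hpow (k - 1))).mul continuousOn_const).mul
        (hj.comp hmapc.continuousOn hmaps)).add
        ((hpow k).mul (hdq.comp hmapc.continuousOn hmaps))
    · intro t ht w hw
      have a1 : HasDerivAt (fun t : ℂ => w - (z + t • vz)) (-vz) t := by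
        have := ((hasDerivAt_id t).smul_const vz).const_add z
        have := this.const_sub w
        simpa using this
      have a2 : HasDerivAt (fun t : ℂ => (w - (z + t • vz)) ^ k)
          ((k : ℂ) * (w - (z + t • vz)) ^ (k - 1) * (-vz)) t := by
        have a4 := hasDerivAt_zpow k (w - (z + t • vz)) (Or.inl (hne t ht w hw))
        exact a4.comp t a1
      have a3 : HasDerivAt (fun t : ℂ => j (q + t • vq, w)) (dq (q + t • vq, w)) t := by
        have b1 := hq (q + t • vq, w) ⟨(hball t ht).1, hA hw⟩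
        have b2 : HasDerivAt (fun s : ℂ => j ((q + t • vq, w) + s • (vq, (0 : ℂ))))
            (dq (q + t • vq, w)) (t - t) := by
          rw [sub_self]; exact b1
        have b3 := b2.comp_sub_const t t
        refine b3.congr_of_eventuallyEq (Eventually.of_forall fun s => ?_)
        simp only
        congr 1
        refine Prod.ext ?_ ?_
        · show q + s • vq = (q + t • vq) + (s - t) • vq
          rw [sub_smul]
          abel
        · simp
      exact a2.mul a3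
  simp only [zero_smul, add_zero] at h1
  -- the total derivative
  have h2 : (∮ w in C(0, ρ), ((k : ℂ) * (w - z) ^ (k - 1) * j (q, w) + (w - z) ^ k * dz (q, w))) =
      0 := by
    refine circleIntegral.integral_eq_zero_of_hasDerivWithinAt
      (f := fun w => (w - z) ^ k * j (q, w)) hρ.le fun w hw => HasDerivAt.hasDerivWithinAt ?_
    have hw0 : w - z ≠ 0 := by
      have := hne 0 (mem_ball_self hδ) w hw
      simpa using this
    have a1 : HasDerivAt (fun w : ℂ => w - z) 1 w := (hasDerivAt_id w).sub_const z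
    have a2 : HasDerivAt (fun w : ℂ => (w - z) ^ k) ((k : ℂ) * (w - z) ^ (k - 1) * 1) w := by
      have a4 := hasDerivAt_zpow k (w - z) (Or.inl hw0)
      exact a4.comp w a1
    have a3 : HasDerivAt (fun w : ℂ => j (q, w)) (dz (q, w)) w := by
      have b1 := hz (q, w) ⟨hqN, hA hw⟩
      have b2 : HasDerivAt (fun s : ℂ => j ((q, w) + s • ((0 : E), (1 : ℂ)))) (dz (q, w))
          (w - w) := by
        rw [sub_self]; exact b1
      have b3 := b2.comp_sub_const w w
      refine b3.congr_of_eventuallyEq (Eventually.of_forall fun s => ?_)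
      simp only
      congr 1
      refine Prod.ext ?_ ?_
      · simp
      · simp
    rw [mul_one] at a2
    exact a2.mul a3
  -- continuity on the circle
  have hne0 : ∀ w ∈ sphere (0 : ℂ) ρ, w - z ≠ 0 := fun w hw => by
    have := hne 0 (mem_ball_self hδ) w hw
    simpa using this
  have cp : ∀ m : ℤ, ContinuousOn (fun w : ℂ => (w - z) ^ m) (sphere 0 ρ) := fun m =>
    ContinuousOn.zpow₀ (by fun_prop) m fun w hw => Or.inl (hne0 w hw)
  have cm : MapsTo (fun w : ℂ => (q, w)) (sphere 0 ρ) (N ×ˢ A) := fun w hw => ⟨hqN, hA hw⟩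
  have cc : ContinuousOn (fun w : ℂ => (q, w)) (sphere 0 ρ) := by fun_prop
  have cj : ContinuousOn (fun w : ℂ => j (q, w)) (sphere 0 ρ) := hj.comp cc cm
  have cdq : ContinuousOn (fun w : ℂ => dq (q, w)) (sphere 0 ρ) := hdq.comp cc cm
  have cdz : ContinuousOn (fun w : ℂ => dz (q, w)) (sphere 0 ρ) := hdz.comp cc cm
  have i1 : CircleIntegrable (fun w => (k : ℂ) * (w - z) ^ (k - 1) * (-vz) * j (q, w) +
      (w - z) ^ k * dq (q, w)) 0 ρ :=
    ((((continuousOn_const.mul (cp (k - 1))).mul continuousOn_const).mul cj).add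
      ((cp k).mul cdq)).circleIntegrable hρ.le
  have i2 : CircleIntegrable (fun w => vz * ((k : ℂ) * (w - z) ^ (k - 1) * j (q, w) +
      (w - z) ^ k * dz (q, w))) 0 ρ :=
    (continuousOn_const.mul (((continuousOn_const.mul (cp (k - 1))).mul cj).add
      ((cp k).mul cdz))).circleIntegrable hρ.le
  have h3 : (∮ w in C(0, ρ), (w - z) ^ k * (dq (q, w) + vz * dz (q, w))) =
      (∮ w in C(0, ρ), ((k : ℂ) * (w - z) ^ (k - 1) * (-vz) * j (q, w) +
        (w - z) ^ k * dq (q, w))) +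
      ∮ w in C(0, ρ), vz * ((k : ℂ) * (w - z) ^ (k - 1) * j (q, w) + (w - z) ^ k * dz (q, w)) := by
    rw [← circleIntegral.integral_add i1 i2]
    refine circleIntegral.integral_congr hρ.le fun w _ => ?_
    ring
  rw [circleIntegral.integral_const_mul, h2, mul_zero, add_zero] at h3
  rw [h3]
  exact h1

/-- Continuity of the integrals of `(w - z) ^ k * j (q, w)`. -/
theorem kernel_cont {E : Type*} [TopologicalSpace E] {N : Set E} {A : Set ℂ} {ρ : ℝ} (hρ : 0 < ρ)
    (hA : sphere (0 : ℂ) ρ ⊆ A) {j : E × ℂ → ℂ} (hj : ContinuousOn j (N ×ˢ A)) (k : ℤ) :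
    ContinuousOn (fun p : E × ℂ => ∮ w in C(0, ρ), (w - p.2) ^ k * j (p.1, w))
      (N ×ˢ ball (0 : ℂ) ρ) := by
  refine circle_param_cont hρ.le (Φ := fun (p : E × ℂ) w => (w - p.2) ^ k * j (p.1, w)) ?_
  refine ContinuousOn.mul ?_ ?_
  · refine ContinuousOn.zpow₀ (by fun_prop) k ?_
    rintro ⟨p, w⟩ ⟨hp, hw⟩
    left
    intro h
    have h1 : ‖p.2‖ < ρ := by simpa using hp.2
    rw [← sub_eq_zero.mp h, mem_sphere_zero_iff_norm.mp hw] at h1
    exact lt_irrefl _ h1
  · refine hj.comp (f := fun x : (E × ℂ) × ℂ => (x.1.1, x.2)) (by fun_prop) ?_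
    rintro ⟨p, w⟩ ⟨hp, hw⟩
    exact ⟨hp.1, hA hw⟩

theorem kernel_diff_outside {g : ℂ → ℂ} {r : ℝ} (hr : 0 ≤ r)
    (hg : ContinuousOn g (Metric.sphere 0 r)) (k : ℤ) {z : ℂ} (hz : r < ‖z‖) :
    DifferentiableAt ℂ (fun z => ∮ w in C(0, r), (w - z) ^ k * g w) z := by
  obtain ⟨δ, hδ, hball⟩ : ∃ δ > 0, ∀ t ∈ Metric.ball (0 : ℂ) δ, r < ‖z + t‖ := by
    have hc : Continuous fun t : ℂ => z + t := by fun_prop
    have h3 : ∀ᶠ w : ℂ in 𝓝 (z + 0), r < ‖w‖ :=
      (isOpen_lt continuous_const continuous_norm).mem_nhds (by simpa using hz)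
    obtain ⟨δ, hδ, h4⟩ := Metric.eventually_nhds_iff_ball.mp (hc.continuousAt.eventually h3)
    exact ⟨δ, hδ, h4⟩
  have hne : ∀ t ∈ Metric.ball (0 : ℂ) δ, ∀ w ∈ Metric.sphere (0 : ℂ) r, w - (z + t) ≠ 0 := by
    intro t ht w hw h
    rw [mem_sphere_zero_iff_norm] at hw
    have h1 := hball t ht
    rw [← sub_eq_zero.mp h, hw] at h1
    exact lt_irrefl _ h1
  have hpow : ∀ m : ℤ, ContinuousOn (fun x : ℂ × ℂ => (x.2 - (z + x.1)) ^ m)
      (Metric.ball 0 δ ×ˢ Metric.sphere (0 : ℂ) r) := by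
    intro m
    refine ContinuousOn.zpow₀ (by fun_prop) m fun x hx => ?_
    exact Or.inl (hne x.1 hx.1 x.2 hx.2)
  have hg' : ContinuousOn (fun x : ℂ × ℂ => g x.2)
      (Metric.ball 0 δ ×ˢ Metric.sphere (0 : ℂ) r) :=
    hg.comp (f := fun x : ℂ × ℂ => x.2) (by fun_prop) fun x hx => hx.2
  have hd : ∀ t ∈ Metric.ball (0 : ℂ) δ, ∀ w ∈ Metric.sphere (0 : ℂ) r,
      HasDerivAt (fun t => (w - (z + t)) ^ k * g w)
        (((k : ℂ) * (w - (z + t)) ^ (k - 1) * (-1)) * g w) t := by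
    intro t ht w hw
    have a1 : HasDerivAt (fun t : ℂ => w - (z + t)) (-1) t := by
      have := ((hasDerivAt_id t).const_add z).const_sub w
      simpa using this
    have a4 := hasDerivAt_zpow k (w - (z + t)) (Or.inl (hne t ht w hw))
    have a5 : HasDerivAt (fun t : ℂ => (w - (z + t)) ^ k)
        ((k : ℂ) * (w - (z + t)) ^ (k - 1) * (-1)) t := by
      exact a4.comp t a1
    exact a5.mul_const _
  have h1 : HasDerivAt (fun t : ℂ => ∮ w in C(0, r), (w - (z + t)) ^ k * g w)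
      (∮ w in C(0, r), ((k : ℂ) * (w - (z + 0)) ^ (k - 1) * (-1)) * g w) 0 := by
    refine circle_param_deriv (Φ := fun t w => (w - (z + t)) ^ k * g w)
      (Φ' := fun t w => ((k : ℂ) * (w - (z + t)) ^ (k - 1) * (-1)) * g w) hr hδ ?_ ?_ ?_
    · exact (hpow k).mul hg'
    · exact ((continuousOn_const.mul (hpow (k - 1))).mul continuousOn_const).mul hg'
    · exact hd
  have h2 : HasDerivAt (fun t : ℂ => ∮ w in C(0, r), (w - (z + t)) ^ k * g w)
      (∮ w in C(0, r), ((k : ℂ) * (w - (z + 0)) ^ (k - 1) * (-1)) * g w) (z - z) := by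
    rw [sub_self]
    exact h1
  have h3 := h2.comp_sub_const z z
  refine h3.differentiableAt.congr_of_eventuallyEq (Eventually.of_forall fun s => ?_)
  simp only [add_sub_cancel]

theorem cauchy_diff_outside {g : ℂ → ℂ} {r : ℝ} (hr : 0 ≤ r)
    (hg : ContinuousOn g (Metric.sphere 0 r)) {z : ℂ} (hz : r < ‖z‖) :
    DifferentiableAt ℂ (fun z => ∮ w in C(0, r), (w - z)⁻¹ * g w) z := by
  have h := kernel_diff_outside hr hg (-1) hz
  simp only [zpow_neg_one] at h
  exact h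

end Pool.Agent.QC.An
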