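import Pool.Agent.QC.An.Split
import Pool.Agent.QC.Conn.Line
import Pool.Agent.QC.LS.Lift

/-!
# MP_7c50a9_lc, 3.2: OUT elements
-/

set_option autoImplicit false

namespace Pool.Agent.QC

open MvPolynomial Filter Topology Set

variable {n l : ℕ} (P : Prm)

/-- The annulus. -/
def ann (R₀ R₁ : ℝ) : Set ℂ := {z | R₀ < ‖z‖ ∧ ‖z‖ < R₁}

/-- `K` is a single valued section on the annulus which is OUT: the functions
`∫ f^a Q / (x_n - z)` extend analytically to `|z| > R₀` and are `O(1/z)`. -/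
def OutSec (R₀ R₁ : ℝ) (q : Tup n l) (K : ℂ → Fnl (n + 1)) : Prop :=
  (VLS P n l).Par (fun z => (q, z)) (ann R₀ R₁) K ∧
  ∀ Q, ∃ g : ℂ → ℂ, DifferentiableOn ℂ g {z | R₀ < ‖z‖} ∧ (∀ z ∈ ann R₀ R₁, g z = K z (shift z Q)) ∧
    ∃ C : ℝ, ∀ z, R₁ ≤ ‖z‖ → ‖z‖ * ‖g z‖ ≤ C

/-- OUT elements of the fibre at `(q, z)`. -/
def Out (R₀ R₁ : ℝ) (q : Tup n l) (z : ℂ) (J : Fnl (n + 1)) : Prop :=
  ∃ K, OutSec P R₀ R₁ q K ∧ K z = J

theorem Out.add {R₀ R₁ : ℝ} {q : Tup n l} {z : ℂ} {J J' : Fnl (n + 1)}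
    (h : Out P R₀ R₁ q z J) (h' : Out P R₀ R₁ q z J') : Out P R₀ R₁ q z (J + J') := by
  obtain ⟨K, ⟨h1, h2⟩, rfl⟩ := h
  obtain ⟨K', ⟨h1', h2'⟩, rfl⟩ := h'
  refine ⟨K + K', ⟨LS.Par.add (VLS_lin P) (by fun_prop) h1 h1', fun Q => ?_⟩, rfl⟩
  obtain ⟨g, a1, a2, C, a3⟩ := h2 Q
  obtain ⟨g', b1, b2, C', b3⟩ := h2' Q
  refine ⟨g + g', a1.add b1, fun z hz => ?_, C + C', fun z hz => ?_⟩
  · show g z + g' z = _
    rw [a2 z hz, b2 z hz]
    rfl
  · show ‖z‖ * ‖g z + g' z‖ ≤ _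
    calc ‖z‖ * ‖g z + g' z‖ ≤ ‖z‖ * (‖g z‖ + ‖g' z‖) :=
          mul_le_mul_of_nonneg_left (norm_add_le _ _) (norm_nonneg _)
      _ ≤ C + C' := by
          rw [mul_add]
          exact add_le_add (a3 z hz) (b3 z hz)

theorem Out.smul {R₀ R₁ : ℝ} {q : Tup n l} {z : ℂ} {J : Fnl (n + 1)} (c : ℂ)
    (h : Out P R₀ R₁ q z J) : Out P R₀ R₁ q z (c • J) := by
  obtain ⟨K, ⟨h1, h2⟩, rfl⟩ := h
  refine ⟨c • K, ⟨LS.Par.smul (VLS_lin P) c h1, fun Q => ?_⟩, rfl⟩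
  obtain ⟨g, a1, a2, C, a3⟩ := h2 Q
  refine ⟨fun z => c * g z, a1.const_mul c, fun z hz => ?_, ‖c‖ * C, fun z hz => ?_⟩
  · show c * g z = _
    rw [a2 z hz]
    rfl
  · show ‖z‖ * ‖c * g z‖ ≤ _
    rw [norm_mul, mul_left_comm]
    exact mul_le_mul_of_nonneg_left (a3 z hz) (norm_nonneg _)

theorem ann_isOpen (R₀ R₁ : ℝ) : IsOpen (ann R₀ R₁) :=
  (isOpen_lt continuous_const continuous_norm).inter (isOpen_lt continuous_norm continuous_const)

theorem ann_preconn {R₀ R₁ : ℝ} (hR₀ : 0 ≤ R₀) : IsPreconnected (ann R₀ R₁) := by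
  have h1 : ann R₀ R₁ = (fun p : ℝ × ℝ => (p.1 : ℂ) * Complex.exp (p.2 * Complex.I)) ''
      (Ioo R₀ R₁ ×ˢ univ) := by
    ext z
    constructor
    · intro hz
      refine ⟨(‖z‖, z.arg), ⟨hz, mem_univ _⟩, ?_⟩
      exact Complex.norm_mul_exp_arg_mul_I z
    · rintro ⟨⟨r, θ⟩, ⟨hr, -⟩, rfl⟩
      have hr0 : 0 < r := hR₀.trans_lt hr.1
      have h2 : ‖(r : ℂ) * Complex.exp (θ * Complex.I)‖ = r := by
        rw [norm_mul, Complex.norm_exp_ofReal_mul_I, mul_one, Complex.norm_real,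
          Real.norm_of_nonneg hr0.le]
      exact ⟨by simpa only [h2] using hr.1, by simpa only [h2] using hr.2⟩
  rw [h1]
  refine (isPreconnected_Ioo.prod isPreconnected_univ).image _ ?_
  fun_prop

/-- Parallel sections are holomorphic in the fixed coordinates. -/
theorem par_diffAt {q : Tup n l} {G : Set ℂ} (hG : IsOpen G) {K : ℂ → Fnl (n + 1)}
    (hK : (VLS P n l).Par (fun z => (q, z)) G K) (Q : Pol (n + 1)) {z : ℂ} (hz : z ∈ G) :
    DifferentiableAt ℂ (fun z => K z (shift z Q)) z := by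
  have hK' : (famLS (eV n) P.a (FV P.en P.eta) (FV_ok P) P.irr).Par (fun z => (q, z)) G K := hK
  obtain ⟨y', -, h2⟩ := Par.hasDerivAt_line hG hK' hz
  have e1 : (fun z => K z (shift z Q)) =
      fun z => ∑ k ∈ Finset.range (An.td Q), z ^ k * K z (An.tc Q k) := by
    funext z
    exact An.map_shift _ _ _
  rw [e1]
  refine DifferentiableAt.fun_sum fun k _ => ?_
  exact (differentiableAt_pow k).mul (h2 _).differentiableAt

/-- The Cauchy integrals vanish. -/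
def Van (R₀ R₁ : ℝ) (K : ℂ → Fnl (n + 1)) : Prop :=
  ∀ ρ, R₀ < ρ → ρ < R₁ → ∀ z, R₀ < ‖z‖ → ‖z‖ < ρ → ∀ Q,
    (∮ w in C(0, ρ), (w - z)⁻¹ * K w (shift w Q)) = 0

variable {P}

theorem sphere_sub_ann {R₀ R₁ ρ : ℝ} (h0 : R₀ < ρ) (h1 : ρ < R₁) :
    Metric.sphere (0 : ℂ) ρ ⊆ ann R₀ R₁ := by
  intro w hw
  rw [mem_sphere_zero_iff_norm] at hw
  exact ⟨by rw [hw]; exact h0, by rw [hw]; exact h1⟩

theorem OutSec.van {R₀ R₁ : ℝ} (hR₀ : 0 ≤ R₀) {q : Tup n l} {K : ℂ → Fnl (n + 1)}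
    (h : OutSec P R₀ R₁ q K) : Van R₀ R₁ K := by
  intro ρ h0 h1 z _ hz Q
  obtain ⟨g, a1, a2, C, a3⟩ := h.2 Q
  have h2 : (∮ w in C(0, ρ), (w - z)⁻¹ * g w) = 0 := An.out_integral_zero hR₀ h0 a1 a3 hz
  refine Eq.trans (circleIntegral.integral_congr (hR₀.trans h0.le) fun w hw => ?_) h2
  rw [a2 w (sphere_sub_ann h0 h1 hw)]

theorem outSec_of_van {R₀ R₁ : ℝ} (hR₀ : 0 < R₀) (hR : R₀ < R₁) {q : Tup n l}
    {K : ℂ → Fnl (n + 1)} (hK : (VLS P n l).Par (fun z => (q, z)) (ann R₀ R₁) K)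
    (hv : Van R₀ R₁ K) : OutSec P R₀ R₁ q K := by
  classical
  refine ⟨hK, fun Q => ?_⟩
  set k : ℂ → ℂ := fun z => K z (shift z Q) with hk
  have hkd : DifferentiableOn ℂ k (ann R₀ R₁) := fun z hz =>
    (par_diffAt P (ann_isOpen _ _) hK Q hz).differentiableWithinAt
  set r : ℝ := (R₀ + R₁) / 2 with hr
  have hr0 : R₀ < r := by rw [hr]; linarith
  have hr1 : r < R₁ := by rw [hr]; linarith
  have hrp : 0 < r := hR₀.trans hr0
  have hpi : (2 * Real.pi * Complex.I : ℂ) ≠ 0 := Complex.two_pi_I_ne_zero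
  set G : ℂ → ℂ := fun z => -((2 * Real.pi * Complex.I)⁻¹ * ∮ w in C(0, r), (w - z)⁻¹ * k w)
    with hG
  have hkc : ContinuousOn k (Metric.sphere 0 r) := hkd.continuousOn.mono (sphere_sub_ann hr0 hr1)
  have hGd : ∀ z, r < ‖z‖ → DifferentiableAt ℂ G z := fun z hz =>
    ((An.cauchy_diff_outside hrp.le hkc hz).const_mul _).neg
  have hGk : ∀ z, r < ‖z‖ → ‖z‖ < R₁ → k z = G z := by
    intro z h1 h2
    set ρ : ℝ := (‖z‖ + R₁) / 2 with hρ
    have hρ0 : ‖z‖ < ρ := by rw [hρ]; linarith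
    have hρ1 : ρ < R₁ := by rw [hρ]; linarith
    have h3 := An.cauchy_annulus (f := k) hrp hr0 hρ1 hkd h1 hρ0
    have h4 : (∮ w in C(0, ρ), (w - z)⁻¹ * k w) = 0 :=
      hv ρ (hr0.trans (h1.trans hρ0)) hρ1 z (hr0.trans h1) hρ0 Q
    rw [h4, zero_sub] at h3
    have h5 : k z = (2 * Real.pi * Complex.I)⁻¹ * (2 * Real.pi * Complex.I * k z) := by
      rw [← mul_assoc, inv_mul_cancel₀ hpi, one_mul]
    rw [h5, h3, hG, mul_neg]
  refine ⟨fun z => if ‖z‖ < R₁ then k z else G z, fun z hz => ?_, fun z hz => ?_, ?_⟩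
  · have hz0 : R₀ < ‖z‖ := hz
    by_cases h1 : ‖z‖ < R₁
    · refine DifferentiableAt.differentiableWithinAt ?_
      have h2 : DifferentiableAt ℂ k z := hkd.differentiableAt ((ann_isOpen _ _).mem_nhds ⟨hz, h1⟩)
      refine h2.congr_of_eventuallyEq ?_
      filter_upwards [(isOpen_lt continuous_norm continuous_const).mem_nhds
        (show z ∈ {z : ℂ | ‖z‖ < R₁} from h1)] with w hw
      exact if_pos hw
    · refine DifferentiableAt.differentiableWithinAt ?_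
      have h3 : r < ‖z‖ := hr1.trans_le (not_lt.mp h1)
      refine (hGd z h3).congr_of_eventuallyEq ?_
      filter_upwards [(isOpen_lt continuous_const continuous_norm).mem_nhds
        (show z ∈ {z : ℂ | r < ‖z‖} from h3)] with w hw
      by_cases h4 : ‖w‖ < R₁
      · rw [if_pos h4]
        exact hGk w hw h4
      · exact if_neg h4
  · exact if_pos hz.2
  · obtain ⟨B, hB⟩ := (isCompact_sphere (0 : ℂ) r).exists_bound_of_continuousOn hkc
    refine ⟨r * |B| * R₁ / (R₁ - r), fun z hz => ?_⟩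
    show ‖z‖ * ‖if ‖z‖ < R₁ then k z else G z‖ ≤ _
    rw [if_neg (not_lt.mpr hz)]
    have hzr : r < ‖z‖ := hr1.trans_le hz
    have h1 : ∀ w ∈ Metric.sphere (0 : ℂ) r, ‖(w - z)⁻¹ * k w‖ ≤ (‖z‖ - r)⁻¹ * |B| := by
      intro w hw
      rw [norm_mul, norm_inv]
      refine mul_le_mul ?_ ((hB w hw).trans (le_abs_self B)) (norm_nonneg _)
        (inv_nonneg.mpr (by linarith))
      refine inv_anti₀ (by linarith) ?_
      have := norm_sub_norm_le z w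
      rw [mem_sphere_zero_iff_norm.mp hw, norm_sub_rev] at this
      exact this
    have h2 := circleIntegral.norm_integral_le_of_norm_le_const hrp.le h1
    have h3 : ‖G z‖ ≤ r * ((‖z‖ - r)⁻¹ * |B|) := by
      rw [hG]
      simp only
      rw [norm_neg, norm_mul, norm_inv, norm_mul, norm_mul, Complex.norm_I, mul_one,
        Complex.norm_real, Real.norm_of_nonneg Real.pi_pos.le, RCLike.norm_ofNat]
      calc (2 * Real.pi)⁻¹ * ‖∮ w in C(0, r), (w - z)⁻¹ * k w‖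
          ≤ (2 * Real.pi)⁻¹ * (2 * Real.pi * r * ((‖z‖ - r)⁻¹ * |B|)) :=
            mul_le_mul_of_nonneg_left h2 (by positivity)
        _ = r * ((‖z‖ - r)⁻¹ * |B|) := by
            field_simp
    have h4 : ‖z‖ * (‖z‖ - r)⁻¹ ≤ R₁ / (R₁ - r) := by
      rw [← div_eq_mul_inv, div_le_div_iff₀ (by linarith) (by linarith)]
      nlinarith
    calc ‖z‖ * ‖G z‖ ≤ ‖z‖ * (r * ((‖z‖ - r)⁻¹ * |B|)) :=
          mul_le_mul_of_nonneg_left h3 (norm_nonneg _)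
      _ = r * |B| * (‖z‖ * (‖z‖ - r)⁻¹) := by ring
      _ ≤ r * |B| * (R₁ / (R₁ - r)) :=
          mul_le_mul_of_nonneg_left h4 (by positivity)
      _ = r * |B| * R₁ / (R₁ - r) := by ring

theorem shF_FV : An.ShF (FV (n := n) (l := l) P.en P.eta) := by
  intro q z u
  rw [pol_FV, pol_FV]
  show shift u (shift z (P.f q)) = shift (z + u) (P.f q)
  rw [An.shift_shift, add_comm u z]

/-- A section over `N × annulus` which vanishes in the sense of `Van` over one tuple vanishes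
over all. -/
theorem van_spread {R₀ R₁ : ℝ} (hR₀ : 0 < R₀) {N : Set (Tup n l)} (hN : IsOpen N)
    (hNc : IsPreconnected N) (hX : ∀ q ∈ N, ∀ z ∈ ann R₀ R₁, (q, z) ∈ (VLS P n l).X)
    {y : Tup n l × ℂ → Fnl (n + 1)} (hy : (VLS P n l).sol (N ×ˢ ann R₀ R₁) y) {q₁ q : Tup n l}
    (hq₁ : q₁ ∈ N) (hq : q ∈ N) (hv : Van R₀ R₁ (fun z => y (q₁, z))) :
    Van R₀ R₁ (fun z => y (q, z)) := by
  have hy1 : Sol (eV n) P.a (FV P.en P.eta) (N ×ˢ ann R₀ R₁) y := hy.2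
  have hXr : N ×ˢ ann R₀ R₁ ⊆ {p : Tup n l × ℂ | Reg (eV n) (pol (FV P.en P.eta p))} :=
    fun p hp => hX p.1 hp.1 p.2 hp.2
  obtain ⟨y', hy', hl⟩ := exists_low_sol (FV_ok P) P.irr (hN.prod (ann_isOpen _ _)) hXr hy1
  have ha : (P.a : ℂ) ≠ 0 := by
    rw [Ne, Complex.ofReal_eq_zero]
    exact P.irr.ne_zero
  have hpi : (2 * Real.pi * Complex.I : ℂ) ≠ 0 := Complex.two_pi_I_ne_zero
  intro ρ h0 h1 z hz0 hzρ Q
  have hρ : 0 < ρ := hR₀.trans h0
  have hsph : Metric.sphere (0 : ℂ) ρ ⊆ ann R₀ R₁ := sphere_sub_ann h0 h1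
  have hin := An.inn_sol hρ hsph hN ((FV_ok P).smooth.of_le le_top) shF_FV hy1 hy' hl ha hXr
  have hyc : ∀ q ∈ N, ∀ P, ContinuousOn (fun w => y (q, w) P) (Metric.sphere 0 ρ) :=
    fun q hq P => (hy1.1 P).comp (f := fun w : ℂ => (q, w)) (by fun_prop)
      fun w hw => ⟨hq, hsph hw⟩
  have happ : ∀ q ∈ N, ∀ z, ‖z‖ < ρ → ∀ Q, An.inn ρ y (q, z) (shift z Q) =
      (2 * Real.pi * Complex.I)⁻¹ * ∮ w in C(0, ρ), (w - z)⁻¹ * y (q, w) (shift w Q) := by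
    intro q hq z hz Q
    rw [An.inn_apply hρ hz (hyc q hq)]
    congr 1
    refine circleIntegral.integral_congr hρ.le fun w _ => ?_
    rw [An.shift_shift, sub_add_cancel]
  have hM : IsOpen (N ×ˢ ann R₀ ρ) := hN.prod (ann_isOpen _ _)
  have hMc : IsPreconnected (N ×ˢ ann R₀ ρ) := hNc.prod (ann_preconn hR₀.le)
  have hsub : N ×ˢ ann R₀ ρ ⊆ N ×ˢ ann R₀ R₁ := fun p hp => ⟨hp.1, hp.2.1, hp.2.2.trans h1⟩
  have hMX : N ×ˢ ann R₀ ρ ⊆ (VLS P n l).X := fun p hp => hX p.1 hp.1 p.2 (hsub hp).2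
  have hs1 : (VLS P n l).sol (N ×ˢ ann R₀ ρ) (An.inn ρ y) := by
    refine (VLS P n l).sol_mono (N := N ×ˢ Metric.ball (0 : ℂ) ρ)
      ⟨hN.prod Metric.isOpen_ball, hin⟩ hM ?_
    intro p hp
    exact ⟨hp.1, by simpa using hp.2.2⟩
  have hs0 : (VLS P n l).sol (N ×ˢ ann R₀ ρ) 0 := (VLS_lin P).zero hM
  have hz : z ∈ ann R₀ ρ := ⟨hz0, hzρ⟩
  have he0 : An.inn ρ y (q₁, z) = (0 : Tup n l × ℂ → Fnl (n + 1)) (q₁, z) := by
    refine LinearMap.ext fun R => ?_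
    have h2 := happ q₁ hq₁ z hzρ (shift (-z) R)
    rw [An.shift_neg_shift] at h2
    rw [h2, hv ρ h0 h1 z hz0 hzρ, mul_zero]
    rfl
  have he := (VLS P n l).unique hMc hMX hs1 hs0 (p := (q₁, z)) ⟨hq₁, hz⟩ he0
  have h3 := happ q hq z hzρ Q
  rw [he (x := (q, z)) ⟨hq, hz⟩] at h3
  have h4 : (2 * Real.pi * Complex.I)⁻¹ * (∮ w in C(0, ρ), (w - z)⁻¹ * y (q, w) (shift w Q)) =
      0 := h3.symm
  exact (mul_eq_zero.mp h4).resolve_left (inv_ne_zero hpi)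

/-- Extension of an OUT section to neighbouring tuples. -/
theorem local_out {R₀ R₁ : ℝ} (hR₀ : 0 < R₀) (hR : R₀ < R₁) {N : Set (Tup n l)} (hN : IsOpen N)
    (hNc : Convex ℝ N) (hX : ∀ q ∈ N, ∀ z ∈ ann R₀ R₁, (q, z) ∈ (VLS P n l).X)
    {q₁ : Tup n l} (hq₁ : q₁ ∈ N) {K : ℂ → Fnl (n + 1)} (hK : OutSec P R₀ R₁ q₁ K) :
    ∃ y, (VLS P n l).sol (N ×ˢ ann R₀ R₁) y ∧ (∀ z ∈ ann R₀ R₁, y (q₁, z) = K z) ∧
      ∀ q ∈ N, OutSec P R₀ R₁ q (fun z => y (q, z)) := by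
  have hΩ : IsOpen (N ×ˢ ann R₀ R₁) := hN.prod (ann_isOpen _ _)
  set h : (Tup n l × ℂ) × ℝ → Tup n l × ℂ := fun p => (q₁ + p.2 • (p.1.1 - q₁), p.1.2) with hh
  have hc : Continuous h := by
    rw [hh]
    fun_prop
  have hm : MapsTo h ((N ×ˢ ann R₀ R₁) ×ˢ Icc 0 1) (N ×ˢ ann R₀ R₁) := by
    rintro ⟨⟨q, z⟩, s⟩ ⟨⟨h1, h2⟩, h3, h4⟩
    refine ⟨?_, h2⟩
    have h5 := hNc hq₁ h1 (sub_nonneg.mpr h4) h3 (sub_add_cancel 1 s)
    have h6 : q₁ + s • (q - q₁) = (1 - s) • q₁ + s • q := by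
      rw [smul_sub, sub_smul, one_smul]
      abel
    show q₁ + s • (q - q₁) ∈ N
    rw [h6]
    exact h5
  have hmX : MapsTo h ((N ×ˢ ann R₀ R₁) ×ˢ Icc 0 1) (VLS P n l).X := fun p hp =>
    hX _ (hm hp).1 _ (hm hp).2
  have hbase : (VLS P n l).Par (fun p => h (p, 0)) (N ×ˢ ann R₀ R₁) (K ∘ Prod.snd) := by
    have h1 : (VLS P n l).Par ((fun z => (q₁, z)) ∘ Prod.snd) (N ×ˢ ann R₀ R₁) (K ∘ Prod.snd) :=
      hK.1.comp (g := Prod.snd) continuous_snd.continuousOn fun p hp => hp.2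
    refine h1.congr_map ?_
    intro p _
    simp [hh]
  obtain ⟨u, hu, hu0⟩ := LS.Par.lift hc.continuousOn hmX hbase
  have h1 : (VLS P n l).Par (id : Tup n l × ℂ → Tup n l × ℂ) (N ×ˢ ann R₀ R₁)
      (fun p => u (p, 1)) := by
    have h2 := hu.comp (g := fun p : Tup n l × ℂ => (p, (1 : ℝ))) (R := N ×ˢ ann R₀ R₁)
      (by fun_prop) fun p hp => ⟨hp, zero_le_one, le_rfl⟩
    refine h2.congr_map ?_
    intro p _
    simp [hh]
  have hsol : (VLS P n l).sol (N ×ˢ ann R₀ R₁) (fun p => u (p, 1)) := LS.Par.sol hΩ h1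
  have hval : ∀ z ∈ ann R₀ R₁, u ((q₁, z), 1) = K z := by
    intro z hz
    have hcs : ContinuousOn (fun s : ℝ => ((q₁, z), s)) (Icc (0 : ℝ) 1) := by fun_prop
    have hms : MapsTo (fun s : ℝ => ((q₁, z), s)) (Icc (0 : ℝ) 1)
        ((N ×ˢ ann R₀ R₁) ×ˢ Icc (0 : ℝ) 1) := fun s hs => ⟨⟨hq₁, hz⟩, hs⟩
    have a1 := hu.comp hcs hms
    have a2 : (VLS P n l).Par (h ∘ fun s : ℝ => ((q₁, z), s)) (Icc (0 : ℝ) 1)
        (fun _ : ℝ => K z) := by
      have a3 : (VLS P n l).Par ((fun z => (q₁, z)) ∘ fun _ : ℝ => z) (Icc (0 : ℝ) 1)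
          (K ∘ fun _ : ℝ => z) := hK.1.comp continuousOn_const fun _ _ => hz
      refine (a3.congr_map ?_).congr ?_
      · intro s _
        simp [hh]
      · intro s _
        rfl
    have a4 := LS.Par.unique isPreconnected_Icc (hc.continuousOn.comp hcs (mapsTo_univ _ _))
      (hmX.comp hms) a1 a2 (left_mem_Icc.mpr zero_le_one) (by
        simp only [Function.comp_apply]
        exact hu0 (q₁, z) ⟨hq₁, hz⟩)
    exact a4 (right_mem_Icc.mpr zero_le_one)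
  refine ⟨fun p => u (p, 1), hsol, hval, fun q hq => ?_⟩
  have hPar : (VLS P n l).Par (fun z => (q, z)) (ann R₀ R₁) (fun z => u ((q, z), 1)) :=
    LS.Par.of_sol (h := fun z : ℂ => (q, z)) hsol fun z hz => ⟨hq, hz⟩
  refine outSec_of_van hR₀ hR hPar ?_
  refine van_spread hR₀ hN hNc.isPreconnected hX hsol hq₁ hq ?_
  intro ρ h0 h1 z hz0 hzρ Q
  refine Eq.trans (circleIntegral.integral_congr (hR₀.trans h0).le fun w hw => ?_)
    (hK.van hR₀.le ρ h0 h1 z hz0 hzρ Q)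
  show (w - z)⁻¹ * u ((q₁, w), 1) (shift w Q) = (w - z)⁻¹ * K w (shift w Q)
  rw [hval w (sphere_sub_ann h0 h1 hw)]

variable (P)

/-- OUT is preserved by transport: `T` is a (pre)connected set of parameters over which there are
no singular points and the annulus is free of critical values. -/
theorem Out.transport {R₀ R₁ : ℝ} (hR₀ : 0 < R₀) (hR : R₀ < R₁) {T : Type*} [TopologicalSpace T]
    {S : Set T} (hS : IsPreconnected S) {h : T → Tup n l} (hh : ContinuousOn h S)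
    (hs : ∀ t ∈ S, SingF (P.f (h t)) = ∅)
    (hf : ∀ t ∈ S, ∀ z, R₀ ≤ ‖z‖ → ‖z‖ ≤ R₁ → z ∉ SigF (P.f (h t))) {z₀ : ℂ}
    (hz : z₀ ∈ ann R₀ R₁) {u : T → Fnl (n + 1)}
    (hu : (VLS P n l).Par (fun t => (h t, z₀)) S u) {t t' : T} (ht : t ∈ S) (ht' : t' ∈ S)
    (ho : Out P R₀ R₁ (h t) z₀ (u t)) : Out P R₀ R₁ (h t') z₀ (u t') := by
  refine (hS.induction₂ (fun x y => (Out P R₀ R₁ (h x) z₀ (u x) ↔ Out P R₀ R₁ (h y) z₀ (u y)))
    ?_ ?_ ?_ ht ht').mp ho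
  · intro x hx
    -- a ball of regular parameters
    obtain ⟨V, W, hVo, -, hxV, hKW, hVW⟩ : ∃ (V : Set (Tup n l)) (W : Set ℂ), IsOpen V ∧
        IsOpen W ∧ {h x} ⊆ V ∧ {z : ℂ | R₀ ≤ ‖z‖ ∧ ‖z‖ ≤ R₁} ⊆ W ∧ V ×ˢ W ⊆ (VLS P n l).X := by
      refine generalized_tube_lemma isCompact_singleton ?_ (VLS P n l).isOpen_X ?_
      · have hcl : IsClosed {z : ℂ | R₀ ≤ ‖z‖ ∧ ‖z‖ ≤ R₁} :=
          (isClosed_le continuous_const continuous_norm).inter
            (isClosed_le continuous_norm continuous_const)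
        refine (isCompact_closedBall (0 : ℂ) R₁).of_isClosed_subset hcl ?_
        intro z hz
        simpa using hz.2
      · rintro ⟨q, z⟩ ⟨hq, hz⟩
        have hq' : q = h x := hq
        rw [hq']
        exact (mem_VLS_X P).2 ⟨hs x hx, hf x hx z hz.1 hz.2⟩
    obtain ⟨ε, hε, hball⟩ := Metric.isOpen_iff.mp hVo (h x) (hxV rfl)
    have hX : ∀ q ∈ Metric.ball (h x) ε, ∀ z ∈ ann R₀ R₁, (q, z) ∈ (VLS P n l).X :=
      fun q hq z hz => hVW ⟨hball hq, hKW ⟨hz.1.le, hz.2.le⟩⟩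
    have hcv : Convex ℝ (Metric.ball (h x) ε) := convex_ball _ _
    obtain ⟨N', y₀, hN', hs₀, hev⟩ := hu x hx
    obtain ⟨N₀, ho, hpN, hsub, hNX, hc, -⟩ := (VLS P n l).nice (h x, z₀)
      (hX _ (Metric.mem_ball_self hε) z₀ hz) (N' ∩ (Metric.ball (h x) ε ×ˢ ann R₀ R₁))
      ((((VLS P n l).sol_open hs₀).inter (Metric.isOpen_ball.prod (ann_isOpen _ _))).mem_nhds
        ⟨hN', Metric.mem_ball_self hε, hz⟩)
    -- the key: OUT at one point of `N₀` implies OUT at the others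
    have key : ∀ q q', (q, z₀) ∈ N₀ → (q', z₀) ∈ N₀ → Out P R₀ R₁ q z₀ (y₀ (q, z₀)) →
        Out P R₀ R₁ q' z₀ (y₀ (q', z₀)) := by
      rintro q q' hq hq' ⟨K, hK, hKz⟩
      obtain ⟨y, h1, h2, h3⟩ := local_out hR₀ hR Metric.isOpen_ball hcv hX (hsub hq).2.1 hK
      have h4 : EqOn y y₀ N₀ := (VLS P n l).unique hc hNX
        ((VLS P n l).sol_mono h1 ho fun p hp => (hsub hp).2)
        ((VLS P n l).sol_mono hs₀ ho fun p hp => (hsub hp).1) hq (by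
          rw [h2 z₀ hz, hKz])
      exact ⟨_, h3 q' (hsub hq').2.1, h4 hq'⟩
    have hmem : ∀ᶠ s in 𝓝[S] x, (h s, z₀) ∈ N₀ := by
      have h1 : ContinuousWithinAt (fun s => (h s, z₀)) S x :=
        (hh x hx).prodMk continuousWithinAt_const
      exact h1 (ho.mem_nhds hpN)
    have e1 := hev.self_of_nhdsWithin hx
    filter_upwards [hev, hmem] with s h3 h4
    rw [e1, h3]
    exact ⟨key _ _ hpN h4, key _ _ h4 hpN⟩
  · intro x y z _ _ _ h1 h2
    exact h1.trans h2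
  · intro x y _ _ h1
    exact h1.symm

/-- An OUT element with vanishing y-part is zero. -/
theorem Out.eq_zero {R₀ R₁ : ℝ} (hR₀ : 0 < R₀) (_hR : R₀ < R₁) {q : Tup n l}
    (hs : SingF (P.f q) = ∅) (hf : ∀ z, R₀ ≤ ‖z‖ → ‖z‖ ≤ R₁ → z ∉ SigF (P.f q)) {z : ℂ}
    (hz : z ∈ ann R₀ R₁) {J : Fnl (n + 1)} (ho : Out P R₀ R₁ q z J) (hy : ymap z J = 0) :
    J = 0 := by
  obtain ⟨K, hK, rfl⟩ := ho
  have hX : MapsTo (fun z : ℂ => (q, z)) (ann R₀ R₁) (VLS P n l).X := fun w hw =>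
    (mem_VLS_X P).2 ⟨hs, hf w hw.1.le hw.2.le⟩
  have hcq : ContinuousOn (fun z : ℂ => (q, z)) (ann R₀ R₁) := by fun_prop
  -- the y-part vanishes everywhere
  have hy0 : ∀ w ∈ ann R₀ R₁, ymap w (K w) = 0 := by
    have h1 : (ZLS P n l).Par (fun _ : ℂ => q) (ann R₀ R₁) (fun w => ymap w (K w)) :=
      Par.ymap P hX hcq hK.1
    have h2 : (ZLS P n l).Par (fun _ : ℂ => q) (ann R₀ R₁)
        ((0 : Tup n l → Fnl (n + 1)) ∘ fun _ : ℂ => q) :=
      LS.Par.of_sol (h := fun _ : ℂ => q) ((ZLS_lin P).zero (N := univ) isOpen_univ)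
        fun _ _ => mem_univ _
    intro w hw
    exact LS.Par.unique (ann_preconn hR₀.le) continuousOn_const
      (fun _ _ => (mem_ZLS_X P).2 hs) h1 h2 hz hy hw
  have hrec : ∀ w ∈ ann R₀ R₁, ∀ Q, K w (shift w (X (Fin.last n) * Q)) =
      w * K w (shift w Q) := by
    intro w hw Q
    have h1 : ymap w (K w) Q = 0 := by rw [hy0 w hw]; rfl
    have h2 : K w (X (Fin.last n) * shift w Q) = 0 := h1
    rw [map_mul, An.shift_X_last, add_mul, map_add, h2, zero_add, C_mul', map_smul, smul_eq_mul]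
  have hpow : ∀ (m : ℕ) (w : ℂ), w ∈ ann R₀ R₁ → ∀ Q, K w (shift w (X (Fin.last n) ^ m * Q)) =
      w ^ m * K w (shift w Q) := by
    intro m w hw Q
    induction m with
    | zero => simp
    | succ m ih => rw [pow_succ', mul_assoc, hrec w hw, ih, pow_succ', mul_assoc]
  -- the estimate
  have hvan := hK.van hR₀.le
  have hzero : ∀ Q, K z (shift z Q) = 0 := by
    intro Q
    set r : ℝ := (R₀ + ‖z‖) / 2 with hr
    have hr0 : R₀ < r := by rw [hr]; linarith [hz.1]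
    have hrz : r < ‖z‖ := by rw [hr]; linarith [hz.1]
    have hr1 : r < R₁ := hrz.trans hz.2
    have hrp : 0 < r := hR₀.trans hr0
    set ρ : ℝ := (‖z‖ + R₁) / 2 with hρ
    have hρ0 : ‖z‖ < ρ := by rw [hρ]; linarith [hz.2]
    have hρ1 : ρ < R₁ := by rw [hρ]; linarith [hz.2]
    have hkd : ∀ Q, DifferentiableOn ℂ (fun z => K z (shift z Q)) (ann R₀ R₁) := fun Q z hz =>
      (par_diffAt P (ann_isOpen _ _) hK.1 Q hz).differentiableWithinAt
    have hkc : ContinuousOn (fun w => (w - z)⁻¹ * K w (shift w Q)) (Metric.sphere 0 r) := by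
      refine ContinuousOn.mul ?_ ((hkd Q).continuousOn.mono (sphere_sub_ann hr0 hr1))
      refine (continuousOn_id.sub continuousOn_const).inv₀ fun w hw h => ?_
      have h1 : w = z := sub_eq_zero.mp h
      rw [h1, mem_sphere_zero_iff_norm] at hw
      exact hrz.ne' hw
    obtain ⟨B, hB⟩ := (isCompact_sphere (0 : ℂ) r).exists_bound_of_continuousOn hkc
    have hest : ∀ m : ℕ, ‖K z (shift z Q)‖ ≤ r * |B| * (r / ‖z‖) ^ m := by
      intro m
      have h1 := An.cauchy_annulus (f := fun w => K w (shift w (X (Fin.last n) ^ m * Q)))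
        hrp hr0 hρ1 (hkd _) hrz hρ0
      rw [hvan ρ (hr0.trans (hrz.trans hρ0)) hρ1 z hz.1 hρ0, zero_sub, hpow m z hz] at h1
      have h2 : ∀ w ∈ Metric.sphere (0 : ℂ) r,
          ‖(w - z)⁻¹ * K w (shift w (X (Fin.last n) ^ m * Q))‖ ≤ r ^ m * |B| := by
        intro w hw
        rw [hpow m w (sphere_sub_ann hr0 hr1 hw), mul_left_comm, norm_mul, norm_pow,
          mem_sphere_zero_iff_norm.mp hw]
        exact mul_le_mul_of_nonneg_left ((hB w hw).trans (le_abs_self B)) (pow_nonneg hrp.le m)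
      have h3 := circleIntegral.norm_integral_le_of_norm_le_const hrp.le h2
      have h4 : 2 * Real.pi * (‖z‖ ^ m * ‖K z (shift z Q)‖) ≤
          2 * Real.pi * r * (r ^ m * |B|) := by
        have h5 : ‖2 * Real.pi * Complex.I * (z ^ m * K z (shift z Q))‖ =
            2 * Real.pi * (‖z‖ ^ m * ‖K z (shift z Q)‖) := by
          rw [norm_mul, norm_mul, norm_mul, Complex.norm_I, mul_one, Complex.norm_real,
            Real.norm_of_nonneg Real.pi_pos.le, RCLike.norm_ofNat, norm_mul, norm_pow]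
        rw [← h5, h1, norm_neg]
        exact h3
      have hz0 : 0 < ‖z‖ := hrp.trans hrz
      have h6 : ‖z‖ ^ m * ‖K z (shift z Q)‖ ≤ r * (r ^ m * |B|) := by
        have : 2 * Real.pi * (‖z‖ ^ m * ‖K z (shift z Q)‖) ≤
            2 * Real.pi * (r * (r ^ m * |B|)) := by linarith
        exact le_of_mul_le_mul_left this (by positivity)
      rw [div_pow, ← mul_div_assoc, le_div_iff₀ (pow_pos hz0 m)]
      linarith
    have hlim : Tendsto (fun m : ℕ => r * |B| * (r / ‖z‖) ^ m) atTop (𝓝 (r * |B| * 0)) := by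
      refine tendsto_const_nhds.mul (tendsto_pow_atTop_nhds_zero_of_lt_one ?_ ?_)
      · positivity
      · rw [div_lt_one (hrp.trans hrz)]
        exact hrz
    rw [mul_zero] at hlim
    have h7 : ‖K z (shift z Q)‖ ≤ 0 := ge_of_tendsto' hlim hest
    exact norm_le_zero_iff.mp h7
  refine LinearMap.ext fun R => ?_
  have h1 := hzero (shift (-z) R)
  rw [An.shift_neg_shift] at h1
  rw [h1]
  rfl

end Pool.Agent.QC
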