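import Pool.Agent.QC.An.Loc
import Pool.Agent.QC.LS.Par
import Pool.Agent.QC.An.Out

/-!
# MP_7c50a9_lc, 2.5, 3.2, 5.4: local form at a critical value, OUT elements, Liouville
-/

namespace Pool.Agent.QC

open MvPolynomial Filter Topology Set

variable {n l : ℕ} (P : Prm)

/-! ## Local form at a critical value (2.5) -/

/-- `z₀` is a simple critical value of `P.f q`: `Sing` is empty and there is exactly one critical
point over `z₀`, a nondegenerate one. -/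
def SimpleCV (q : Tup n l) (z₀ : ℂ) : Prop :=
  SingF (P.f q) = ∅ ∧ ∃ w ∈ CritF (P.f q), w (Fin.last n) = z₀ ∧ NonDegC (P.f q) w ∧
    ∀ x ∈ CritF (P.f q), x (Fin.last n) = z₀ → x = w

/-- The upper (`σ = 1`) and lower (`σ = -1`) half disc. -/
def hDisc (z₀ : ℂ) (r σ : ℝ) : Set ℂ := {z | ‖z - z₀‖ < r ∧ 0 < σ * (z - z₀).im}

/-- The exponent. -/
noncomputable def Prm.s (n : ℕ) : ℝ := P.a + n / 2

theorem hDisc_props (z₀ : ℂ) (r : ℝ) {σ : ℝ} (_ : σ = 1 ∨ σ = -1) {s : ℂ} :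
    IsOpen (hDisc z₀ r σ) ∧ IsPreconnected (hDisc z₀ r σ) ∧ z₀ ∉ hDisc z₀ r σ ∧
      (∀ z ∈ hDisc z₀ r σ, HasDerivAt (fun z => (z - z₀) ^ s) (s / (z - z₀) * (z - z₀) ^ s) z) ∧
      (∀ z ∈ hDisc z₀ r σ, (z - z₀) ^ s ≠ 0) ∧ hDisc z₀ r σ ⊆ Metric.ball z₀ r := by
  have h1 : hDisc z₀ r σ = Metric.ball z₀ r ∩ {z | 0 < σ * (z - z₀).im} := by
    ext z
    rw [mem_inter_iff, Metric.mem_ball, dist_eq_norm]; rfl
  have hne : ∀ z ∈ hDisc z₀ r σ, (z - z₀).im ≠ 0 := by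
    intro z hz h0
    have h2 := hz.2
    rw [h0, mul_zero] at h2
    exact lt_irrefl _ h2
  have hsl : ∀ z ∈ hDisc z₀ r σ, z - z₀ ∈ Complex.slitPlane := fun z hz =>
    Complex.mem_slitPlane_iff.mpr (Or.inr (hne z hz))
  have hc : Convex ℝ {z : ℂ | 0 < σ * (z - z₀).im} := by
    intro x hx y hy a b ha hb hab
    have h2 : ((a • x + b • y) - z₀).im = a * (x - z₀).im + b * (y - z₀).im := by
      have h3 : b = 1 - a := by linarith
      simp only [Complex.sub_im, Complex.add_im, Complex.smul_im, smul_eq_mul, h3]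
      ring
    show 0 < σ * ((a • x + b • y) - z₀).im
    rw [h2]
    have hx' : 0 < σ * (x - z₀).im := hx
    have hy' : 0 < σ * (y - z₀).im := hy
    rcases eq_or_lt_of_le ha with h0 | h0
    · have hb1 : b = 1 := by linarith
      rw [← h0, hb1]; linarith
    · nlinarith [mul_pos h0 hx', mul_nonneg hb hy'.le]
  refine ⟨?_, ?_, ?_, fun z hz => hasDerivAt_cpow_sub (hsl z hz), fun z hz h0 => ?_, ?_⟩
  · rw [h1]
    refine Metric.isOpen_ball.inter (isOpen_lt continuous_const ?_)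
    exact continuous_const.mul (Complex.continuous_im.comp (continuous_id.sub continuous_const))
  · rw [h1]
    exact ((convex_ball _ _).inter hc).isPreconnected
  · intro h0
    exact hne z₀ h0 (by simp)
  · rw [Complex.cpow_eq_zero_iff] at h0
    exact Complex.slitPlane_ne_zero (hsl z hz) h0.1
  · rw [h1]; exact inter_subset_left

/-- (LOC) On a half disc every section is `hol + c (z - z₀)^s U`, where `hol` is a single valued
section on the punctured disc which extends holomorphically. -/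
theorem loc_form {q : Tup n l} {z₀ : ℂ} (h : SimpleCV P q z₀) :
    ∃ r₀ > 0, (∀ z, ‖z - z₀‖ < r₀ → z ≠ z₀ → (q, z) ∈ (VLS P n l).X) ∧
      ∃ U : ℂ → Fnl (n + 1), (∀ Q, DifferentiableOn ℂ (fun z => U z Q) (Metric.ball z₀ r₀)) ∧
      U z₀ 1 ≠ 0 ∧
      (∀ σ : ℝ, σ = 1 ∨ σ = -1 → (VLS P n l).Par (fun z => (q, z)) (hDisc z₀ r₀ σ)
        (fun z => ((z - z₀) ^ ((P.s n : ℝ) : ℂ)) • U z)) ∧
      ∀ σ : ℝ, σ = 1 ∨ σ = -1 → ∀ K : ℂ → Fnl (n + 1), ∀ r, 0 < r → r ≤ r₀ →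
        (VLS P n l).Par (fun z => (q, z)) (hDisc z₀ r σ) K →
        ∃ (c : ℂ) (H : ℂ → Fnl (n + 1)),
          (∀ Q, DifferentiableOn ℂ (fun z => H z Q) (Metric.ball z₀ r)) ∧
          (VLS P n l).Par (fun z => (q, z)) (Metric.ball z₀ r \ {z₀}) H ∧
          ∀ z ∈ hDisc z₀ r σ, K z = H z + (c * (z - z₀) ^ ((P.s n : ℝ) : ℂ)) • U z := by
  obtain ⟨hs, w, hw, hwz, hn, hu⟩ := h
  obtain ⟨r₀, hr₀, h1, U, h2, h3, h4, h5⟩ := vls_loc P hs hw hwz hn hu
  refine ⟨r₀, hr₀, fun z hz hne => h1 z (by rwa [Metric.mem_ball, dist_eq_norm]) hne, U, h2,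
    by rw [h3]; exact one_ne_zero, ?_, ?_⟩
  · intro σ hσ
    obtain ⟨g1, g2, g3, g4, g5, g6⟩ := hDisc_props z₀ r₀ hσ (s := ((P.s n : ℝ) : ℂ))
    exact (h4 _ _ g1 g2 g3 g4 g5 r₀ hr₀ le_rfl g6).1
  · intro σ hσ K r hr hrr hK
    obtain ⟨g1, g2, g3, g4, g5, g6⟩ := hDisc_props z₀ r hσ (s := ((P.s n : ℝ) : ℂ))
    exact (h4 _ _ g1 g2 g3 g4 g5 r hr hrr g6).2 K hK

/-- A single valued section on the punctured disc extends holomorphically. -/
theorem loc_single {q : Tup n l} {z₀ : ℂ} (h : SimpleCV P q z₀) {r : ℝ} (hr : 0 < r)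
    {K : ℂ → Fnl (n + 1)}
    (hK : (VLS P n l).Par (fun z => (q, z)) (Metric.ball z₀ r \ {z₀}) K) (Q : Pol (n + 1)) :
    ∃ g : ℂ → ℂ, DifferentiableOn ℂ g (Metric.ball z₀ r) ∧
      ∀ z ∈ Metric.ball z₀ r, z ≠ z₀ → g z = K z Q := by
  obtain ⟨hs, w, hw, hwz, hn, hu⟩ := h
  obtain ⟨r₀, hr₀, h1, U, h2, h3, h4, h5⟩ := vls_loc P hs hw hwz hn hu
  have hm : 0 < min r₀ r := lt_min hr₀ hr
  have hmr : min r₀ r ≤ r := min_le_right _ _
  obtain ⟨J, hJ, hJK⟩ := h5 (min r₀ r) hm (min_le_left _ _) K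
    (hK.mono (fun z hz => ⟨Metric.ball_subset_ball hmr hz.1, hz.2⟩))
  classical
  refine ⟨Function.update (fun z => K z Q) z₀ (J z₀ Q), fun z hz => ?_, fun z _ hne =>
    Function.update_of_ne hne _ _⟩
  by_cases hzz : z = z₀
  · subst hzz
    have h6 : DifferentiableAt ℂ (fun z => J z Q) z :=
      (hJ Q).differentiableAt (Metric.ball_mem_nhds z hm)
    refine (h6.congr_of_eventuallyEq ?_).differentiableWithinAt
    filter_upwards [Metric.ball_mem_nhds z hm] with y hy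
    by_cases hyy : y = z
    · rw [hyy, Function.update_self]
    · rw [Function.update_of_ne hyy, hJK y hy hyy]
  · have ho : IsOpen (Metric.ball z₀ r \ {z₀}) := Metric.isOpen_ball.sdiff isClosed_singleton
    have hK' : (famLS (eV n) P.a (FV P.en P.eta) (FV_ok P) P.irr).Par (fun z => (q, z))
      (Metric.ball z₀ r \ {z₀}) K := hK
    obtain ⟨y', -, h6⟩ := Par.hasDerivAt_line ho hK' (z := z) ⟨hz, hzz⟩
    refine ((h6 Q).differentiableAt.congr_of_eventuallyEq ?_).differentiableWithinAt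
    filter_upwards [ho.mem_nhds (show z ∈ Metric.ball z₀ r \ {z₀} from ⟨hz, hzz⟩)] with y hy
    exact Function.update_of_ne hy.2 _ _

end Pool.Agent.QC
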