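import Pool.Agent.QC.An.Simple
import Pool.Agent.QC.Loc.Shift

/-!
# Local form of the sections at a simple critical value (2.5)
-/

set_option autoImplicit false

namespace Pool.Agent.QC

open MvPolynomial Pool.Agent.QC.Ode Pool.Agent.QC.Loc Filter Topology Set Metric

section Gen

variable {m D : ℕ} {e : Fin m → ℕ} {a : ℂ} {c : Fin m → ℂ}

theorem exF_add (G : Cf m D) (v v' : BV D e) :
    exF e a c G (v + v') = exF e a c G v + exF e a c G v' := by
  refine LinearMap.ext fun P => ?_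
  rw [LinearMap.add_apply, exF_apply, exF_apply, exF_apply, ← Finset.sum_add_distrib]
  refine Finset.sum_congr rfl fun b _ => ?_
  rw [map_add, mul_add]

theorem exF_smul (G : Cf m D) (t : ℂ) (v : BV D e) :
    exF e a c G (t • v) = t • exF e a c G v := by
  refine LinearMap.ext fun P => ?_
  rw [LinearMap.smul_apply, exF_apply, exF_apply, smul_eq_mul, Finset.mul_sum]
  refine Finset.sum_congr rfl fun b _ => ?_
  rw [map_smul, smul_eq_mul]; ring

end Gen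

/-- The branch of the power on a set which avoids the slit. -/
theorem hasDerivAt_cpow_sub {s z0 z : ℂ} (hz : z - z0 ∈ Complex.slitPlane) :
    HasDerivAt (fun z => (z - z0) ^ s) (s / (z - z0) * (z - z0) ^ s) z := by
  have h1 : HasDerivAt (fun z : ℂ => z - z0) 1 z := (hasDerivAt_id z).sub_const z0
  have h2 := h1.cpow_const (c := s) hz
  have h3 : z - z0 ≠ 0 := Complex.slitPlane_ne_zero hz
  rw [Complex.cpow_sub _ _ h3, Complex.cpow_one, mul_one] at h2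
  convert h2 using 1
  ring

variable {E : Type*} [NormedAddCommGroup E] [NormedSpace ℂ E] [FiniteDimensional ℂ E]

/-- The structure of the sections along a line at a simple pole of the connection. -/
theorem fam_loc {m D : ℕ} {e : Fin m → ℕ} {a : ℝ} {c : Fin m → ℂ} {F : E × ℂ → Cf m D}
    (HO : FamOK e F) (ha : Irrational a) (H : Fam e (a : ℂ) c F) {q : E} {z0 : ℂ}
    {w : Fin m → ℂ} (hw : NZ e (pol (F (q, z0))) w)
    (hg : eval w (pol (fderiv ℂ F (q, z0) (0, 1))) ≠ 0) {s : ℂ}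
    (hs : s = a + (Fintype.card {i // e i = 0} : ℂ) / 2) (hsk : ∀ k : ℤ, (k : ℂ) ≠ s) :
    ∃ r₀ > 0, (∀ z ∈ ball z0 r₀, z ≠ z0 → (q, z) ∈ (famLS e a F HO ha).X) ∧
      ∃ U : ℂ → Fnl m, (∀ Q, DifferentiableOn ℂ (fun z => U z Q) (ball z0 r₀)) ∧
      U z0 = evL w ∧
      (∀ (G : Set ℂ) (b : ℂ → ℂ), IsOpen G → IsPreconnected G → z0 ∉ G →
        (∀ z ∈ G, HasDerivAt b (s / (z - z0) * b z) z) → (∀ z ∈ G, b z ≠ 0) →
        ∀ r, 0 < r → r ≤ r₀ → G ⊆ ball z0 r →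
        (famLS e a F HO ha).Par (fun z => (q, z)) G (fun z => b z • U z) ∧
        ∀ K : ℂ → Fnl m, (famLS e a F HO ha).Par (fun z => (q, z)) G K →
          ∃ (t : ℂ) (J : ℂ → Fnl m), (∀ Q, DifferentiableOn ℂ (fun z => J z Q) (ball z0 r)) ∧
            (famLS e a F HO ha).Par (fun z => (q, z)) (ball z0 r \ {z0}) J ∧
            ∀ z ∈ G, K z = J z + (t * b z) • U z) ∧
      (∀ r, 0 < r → r ≤ r₀ → ∀ K : ℂ → Fnl m,
        (famLS e a F HO ha).Par (fun z => (q, z)) (ball z0 r \ {z0}) K →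
        ∃ J : ℂ → Fnl m, (∀ Q, DifferentiableOn ℂ (fun z => J z Q) (ball z0 r)) ∧
          ∀ z ∈ ball z0 r, z ≠ z0 → K z = J z) := by
  have HL := H.line q
  have hg' : eval w (pol (fderiv ℂ (fun z => F (q, z)) z0 1)) ≠ 0 := by
    rw [H.fderiv_line q z0]; exact hg
  obtain ⟨φ, hφ, hP, hreg⟩ := HL.hasPole (w := w) (z0 := z0) hw hg' hs hsk
  obtain ⟨ρ, hρ, U, hU0, hUd, hUi, hS1, hS2⟩ := hP.struct
  obtain ⟨δ, hδ, hδr⟩ := Metric.eventually_nhds_iff_ball.mp hreg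
  set v0 : BV D e := v0O D e w with hv0
  set ee : BV D e →L[ℂ] BV D e := φ.smulRight v0 with hee
  have hev : ∀ v, ee v = φ v • v0 := fun v => rfl
  have hev0 : ee v0 = v0 := by rw [hev, hφ, one_smul]
  have hee1 : ∀ v, ee ((1 - ee) v) = 0 := by
    intro v
    show ee (v - ee v) = 0
    rw [map_sub, hev v, map_smul, hev0, sub_self]
  set r₀ := min ρ δ with hr₀
  have hr0 : 0 < r₀ := lt_min hρ hδ
  have hrρ : r₀ ≤ ρ := min_le_left _ _
  have hX : ∀ z ∈ ball z0 r₀, z ≠ z0 → (q, z) ∈ regS e F := fun z hz hne =>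
    hδr z (ball_subset_ball (min_le_right _ _) hz) hne
  have hdiff : ∀ r, r ≤ r₀ → ∀ v : ℂ → BV D e, DifferentiableOn ℂ v (ball z0 r) → ∀ Q,
      DifferentiableOn ℂ (fun z => exF e (a : ℂ) c (F (q, z)) (v z) Q) (ball z0 r) := by
    intro r hr v hv Q z hz
    exact (HL.dFn_exF (a : ℂ) (hv.differentiableAt (isOpen_ball.mem_nhds hz)) Q
      ).differentiableWithinAt
  have hUv : ∀ r, r ≤ r₀ → ∀ v : BV D e, DifferentiableOn ℂ (fun z => U z v) (ball z0 r) :=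
    fun r hr v => (hUd.mono (ball_subset_ball (hr.trans hrρ))).clm_apply
      (differentiableOn_const v)
  refine ⟨r₀, hr0, hX, fun z => exF e (a : ℂ) c (F (q, z)) (U z v0),
    hdiff r₀ le_rfl _ (hUv r₀ le_rfl v0), ?_, ?_, ?_⟩
  · show exF e (a : ℂ) c (F (q, z0)) (U z0 v0) = evL w
    have h1 := HL.exF_v0 (w := w) (z0 := z0) hw H.ha 1
    rw [one_smul, one_smul] at h1
    rw [hU0]
    exact h1
  · intro G b hG hGc hz0 hb hb0 r hr hrr hGr
    have hGρ : G ⊆ ball z0 ρ := hGr.trans (ball_subset_ball (hrr.trans hrρ))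
    have hGX : ∀ z ∈ G, (q, z) ∈ regS e F := fun z hz =>
      hX z (ball_subset_ball hrr (hGr hz)) (fun h => hz0 (h ▸ hz))
    have hs1 := hS1 G b hG hGc hGρ hz0 hb hb0
    refine ⟨?_, fun K hK => ?_⟩
    · have h1 : IsSol (lineN e (a : ℂ) c F q) G (fun z => U z ((1 - ee) v0 + b z • ee v0)) :=
        (hs1 _).mpr ⟨v0, fun z _ => rfl⟩
      have h2 := par_of_isSol HO ha H hG h1 hGX
      have h3 : (fun z => exF e (a : ℂ) c (F (q, z)) (U z ((1 - ee) v0 + b z • ee v0))) =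
          fun z => b z • exF e (a : ℂ) c (F (q, z)) (U z v0) := by
        funext z
        have h4 : (1 - ee) v0 = 0 := by
          show v0 - ee v0 = 0
          rw [hev0, sub_self]
        rw [h4, hev0, zero_add, map_smul, exF_smul]
      rw [h3] at h2
      exact h2
    · have h1 : IsSol (lineN e (a : ℂ) c F q) G (fun z => bx D e (K z)) :=
        Par.isSol H hG hK hGX
      obtain ⟨v, hv⟩ := (hs1 _).mp h1
      refine ⟨φ v, fun z => exF e (a : ℂ) c (F (q, z)) (U z ((1 - ee) v)),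
        hdiff r hrr _ (hUv r hrr _), ?_, ?_⟩
      · refine par_of_isSol HO ha H (isOpen_ball.sdiff isClosed_singleton) ?_
          (fun z hz => hX z (ball_subset_ball hrr hz.1) hz.2)
        exact (hS2 r hr (hrr.trans hrρ) _).mpr ⟨(1 - ee) v, hee1 v, fun z _ _ => rfl⟩
      · intro z hz
        have h2 := Par.exF_bx H hK hz
        rw [← h2, hv z hz, map_add, exF_add, hev, map_smul, map_smul, exF_smul, exF_smul,
          smul_smul, mul_comm]
  · intro r hr hrr K hK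
    have h1 : IsSol (lineN e (a : ℂ) c F q) (ball z0 r \ {z0}) (fun z => bx D e (K z)) :=
      Par.isSol H (isOpen_ball.sdiff isClosed_singleton) hK
        (fun z hz => hX z (ball_subset_ball hrr hz.1) hz.2)
    obtain ⟨v, -, hv⟩ := (hS2 r hr (hrr.trans hrρ) _).mp h1
    refine ⟨fun z => exF e (a : ℂ) c (F (q, z)) (U z v), hdiff r hrr _ (hUv r hrr _),
      fun z hz hne => ?_⟩
    have h2 := Par.exF_bx H hK (z := z) ⟨hz, hne⟩
    rw [← h2, hv z hz hne]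

section Inst

variable {n l : ℕ} (P : Prm)

theorem Prm.nint (n : ℕ) (k : ℤ) : (k : ℂ) ≠ (P.a : ℂ) + (n : ℂ) / 2 := by
  intro h
  have h1 : (k : ℝ) = P.a + (n : ℝ) / 2 := by
    have h2 : ((k : ℝ) : ℂ) = ((P.a + (n : ℝ) / 2 : ℝ) : ℂ) := by push_cast; exact h
    exact_mod_cast h2
  refine P.irr ⟨(k : ℚ) - (n : ℚ) / 2, ?_⟩
  push_cast
  linarith

/-- The local form for `VLS`. -/
theorem vls_loc {q : Tup n l} {z₀ : ℂ} (hs : SingF (P.f q) = ∅) {w : Fin (n + 1) → ℂ}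
    (hw : w ∈ CritF (P.f q)) (hwz : w (Fin.last n) = z₀) (hn : NonDegC (P.f q) w)
    (hu : ∀ x ∈ CritF (P.f q), x (Fin.last n) = z₀ → x = w) :
    ∃ r₀ > 0, (∀ z ∈ ball z₀ r₀, z ≠ z₀ → (q, z) ∈ (VLS P n l).X) ∧
      ∃ U : ℂ → Fnl (n + 1), (∀ Q, DifferentiableOn ℂ (fun z => U z Q) (ball z₀ r₀)) ∧
      U z₀ 1 = 1 ∧
      (∀ (G : Set ℂ) (b : ℂ → ℂ), IsOpen G → IsPreconnected G → z₀ ∉ G →
        (∀ z ∈ G, HasDerivAt b (((P.a + n / 2 : ℝ) : ℂ) / (z - z₀) * b z) z) →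
        (∀ z ∈ G, b z ≠ 0) → ∀ r, 0 < r → r ≤ r₀ → G ⊆ ball z₀ r →
        (VLS P n l).Par (fun z => (q, z)) G (fun z => b z • U z) ∧
        ∀ K : ℂ → Fnl (n + 1), (VLS P n l).Par (fun z => (q, z)) G K →
          ∃ (t : ℂ) (J : ℂ → Fnl (n + 1)),
            (∀ Q, DifferentiableOn ℂ (fun z => J z Q) (ball z₀ r)) ∧
            (VLS P n l).Par (fun z => (q, z)) (ball z₀ r \ {z₀}) J ∧
            ∀ z ∈ G, K z = J z + (t * b z) • U z) ∧
      (∀ r, 0 < r → r ≤ r₀ → ∀ K : ℂ → Fnl (n + 1),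
        (VLS P n l).Par (fun z => (q, z)) (ball z₀ r \ {z₀}) K →
        ∃ J : ℂ → Fnl (n + 1), (∀ Q, DifferentiableOn ℂ (fun z => J z Q) (ball z₀ r)) ∧
          ∀ z ∈ ball z₀ r, z ≠ z₀ → K z = J z) := by
  have HO := FV_ok (n := n) (l := l) P
  obtain ⟨c, hc⟩ := HO.top
  have H : Fam (eV n) (P.a : ℂ) c (FV (n := n) (l := l) P.en P.eta) :=
    Fam.mk' HO.e_le HO.D_ge hc HO.smooth P.irr
  have hw' : NZ (eV n) (pol (FV P.en P.eta (q, z₀))) (sx (-z₀) w) := by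
    rw [pol_FV]
    exact nz_shift hs hw hwz hn hu
  have hg : eval (sx (-z₀) w) (pol (fderiv ℂ (FV P.en P.eta) (q, z₀) (0, 1))) ≠ 0 := by
    rw [pol_fderiv_FV P.en_pos.ne' P.eta_pos.ne', eval_shift, sx_neg]
    exact hn.2
  obtain ⟨r₀, hr₀, h1, U, h2, h3, h4, h5⟩ := fam_loc HO P.irr H hw' hg
    (s := ((P.a + n / 2 : ℝ) : ℂ)) (by rw [card_eV]; push_cast; ring)
    (fun k => by push_cast; exact P.nint n k)
  exact ⟨r₀, hr₀, h1, U, h2, by rw [h3, evL_apply, map_one], h4, h5⟩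

end Inst

end Pool.Agent.QC
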