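import Pool.Agent.QC.Inst
import Pool.Agent.QC.Conn.Der

/-!
# MP_7c50a9_lc, 3.2: the section of exponent `a - 1` below a section
-/

set_option autoImplicit false

namespace Pool.Agent.QC

open MvPolynomial Filter Topology Set

variable {E : Type*} [NormedAddCommGroup E] [NormedSpace ℂ E] {m D : ℕ} {e : Fin m → ℕ}

/-- `y (pol c * P)` as a sum. -/
theorem map_pol_mul (y : Fnl m) (c : Cf m D) (P : Pol m) :
    y (pol c * P) = ∑ d, c d * y (mond d * P) :=
  map_pol y (LinearMap.mulRight ℂ P) c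

/-- Continuity of `y p (pol (c p) * P)`. -/
theorem continuousOn_pol_mul {X : Type*} [TopologicalSpace X] {S : Set X} {y : X → Fnl m}
    (hy : ∀ P, ContinuousOn (fun p => y p P) S) {c : X → Cf m D} (hc : ContinuousOn c S)
    (P : Pol m) : ContinuousOn (fun p => y p (pol (c p) * P)) S := by
  simp only [map_pol_mul]
  refine continuousOn_finsetSum _ fun d _ => ?_
  exact ((continuous_apply d).comp_continuousOn hc).mul (hy _)

/-- The section of exponent `a` above a section of exponent `a - 1`. -/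
theorem Sol.mu {a : ℂ} {F : E → Cf m D} (hF : Differentiable ℂ F) {N : Set E} {y : E → Fnl m}
    (hy : Sol e (a - 1) F N y) :
    Sol e a F N (fun p => y p ∘ₗ LinearMap.mulLeft ℂ (pol (F p))) := by
  refine ⟨fun P => ?_, fun p hp => ?_⟩
  · exact continuousOn_pol_mul hy.1 hF.continuous.continuousOn P
  · obtain ⟨h1, y1, h2, h3⟩ := hy.2 p hp
    refine ⟨comp_mul_mem h1, y p, ⟨h1, fun P => rfl⟩, fun P v => ?_⟩
    have e1 : (fun p => (y p ∘ₗ LinearMap.mulLeft ℂ (pol (F p))) P) =
        fun p => ∑ d, F p d * y p (mond d * P) := by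
      funext p
      exact map_pol_mul _ _ _
    rw [e1]
    have hFd : ∀ d, HasLineDerivAt ℂ (fun p => F p d) (fderiv ℂ F p v d) p v := by
      intro d
      have h4 : HasFDerivAt (fun p => F p d) (ContinuousLinearMap.proj d ∘L fderiv ℂ F p) p :=
        hasFDerivAt_pi'.mp (hF p).hasFDerivAt d
      exact h4.hasLineDerivAt v
    have h5 : HasLineDerivAt ℂ (fun p => ∑ d, F p d * y p (mond d * P))
        (∑ d, (fderiv ℂ F p v d * y p (mond d * P) +
          F p d * ((a - 1) * y1 (pol (fderiv ℂ F p v) * (mond d * P))))) p v := by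
      unfold HasLineDerivAt
      refine HasDerivAt.fun_sum fun d _ => ?_
      have h6 : HasDerivAt (fun t : ℂ => F (p + t • v) d) (fderiv ℂ F p v d) 0 := hFd d
      have h7 : HasDerivAt (fun t : ℂ => y (p + t • v) (mond d * P))
          ((a - 1) * y1 (pol (fderiv ℂ F p v) * (mond d * P))) 0 := h3 (mond d * P) v
      have h8 := h6.mul h7
      simp only [zero_smul, add_zero] at h8
      exact h8
    have h6 : (∑ d, (fderiv ℂ F p v d * y p (mond d * P) +
          F p d * ((a - 1) * y1 (pol (fderiv ℂ F p v) * (mond d * P))))) =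
        a * y p (pol (fderiv ℂ F p v) * P) := by
      rw [Finset.sum_add_distrib, ← map_pol_mul]
      have h7 : (∑ d, F p d * ((a - 1) * y1 (pol (fderiv ℂ F p v) * (mond d * P)))) =
          (a - 1) * y1 (pol (F p) * (pol (fderiv ℂ F p v) * P)) := by
        rw [map_pol_mul, Finset.mul_sum]
        refine Finset.sum_congr rfl fun d _ => ?_
        rw [show pol (fderiv ℂ F p v) * (mond d * P) = mond d * (pol (fderiv ℂ F p v) * P) by ring]
        ring
      rw [h7, h2.2]
      ring
    rw [h6] at h5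
    exact h5

variable [FiniteDimensional ℂ E]

/-- The section of exponent `a - 1` below a section of exponent `a`. -/
theorem exists_low_sol {F : E → Cf m D} (H : FamOK e F) {a : ℝ} (ha : Irrational a) {Ω : Set E}
    (hΩ : IsOpen Ω) (hX : Ω ⊆ {p : E | Reg e (pol (F p))}) {y : E → Fnl m}
    (hy : Sol e a F Ω y) :
    ∃ y' : E → Fnl m, Sol e ((a : ℂ) - 1) F Ω y' ∧
      ∀ p ∈ Ω, Low e a (pol (F p)) (y p) (y' p) := by
  classical
  have ha1 : Irrational (a - 1) := by simpa using ha.sub_intCast 1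
  have ha0 : (a : ℂ) ≠ 0 := by
    rw [Ne, Complex.ofReal_eq_zero]
    exact ha.ne_zero
  have hcast : (((a - 1 : ℝ)) : ℂ) = (a : ℂ) - 1 := by push_cast; ring
  have hFd : Differentiable ℂ F := H.smooth.differentiable (by simp)
  have hex : ∀ p, ∃ z : Fnl m, p ∈ Ω → Low e a (pol (F p)) (y p) z := by
    intro p
    by_cases hp : p ∈ Ω
    · obtain ⟨-, z, h1, -⟩ := hy.2 p hp
      exact ⟨z, fun _ => h1⟩
    · exact ⟨0, fun h => absurd h hp⟩
  choose y' hy' using hex
  have hloc : ∀ p ∈ Ω, ∃ N, IsOpen N ∧ p ∈ N ∧ N ⊆ Ω ∧ Sol e ((a : ℂ) - 1) F N y' := by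
    intro p hp
    obtain ⟨N, h1, h2, h3, h4, h5, h6⟩ := fam_nice H ha1 (hX hp) (hΩ.mem_nhds hp)
    have hz : y' p ∈ Zs e ((a - 1 : ℝ) : ℂ) (pol (F p)) := by
      rw [hcast]
      exact (hy' p hp).1
    obtain ⟨z, hz1, hz2⟩ := h6 p h2 _ hz
    rw [hcast] at hz1
    have hmu := Sol.mu hFd hz1
    have hyN : Sol e a F N y := by
      refine ⟨fun P => (hy.1 P).mono h3, fun q hq => hy.2 q (h3 hq)⟩
    have he : EqOn (fun p => z p ∘ₗ LinearMap.mulLeft ℂ (pol (F p))) y N := by
      refine fam_unique H ha h1 h5 h4 hmu hyN h2 ?_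
      refine LinearMap.ext fun P => ?_
      show z p (pol (F p) * P) = y p P
      rw [hz2]
      exact (hy' p hp).2 P
    have hzy : EqOn z y' N := by
      intro q hq
      refine low_unique ha0 (h4 hq) (y := y q) ⟨?_, fun P => ?_⟩ (hy' q (h3 hq))
      · exact (hz1.2 q hq).1
      · have := he hq
        rw [← this]
        rfl
    refine ⟨N, h1, h2, h3, fun P => (hz1.1 P).congr fun q hq => ?_, fun q hq => ?_⟩
    · show y' q P = z q P
      rw [hzy hq]
    · obtain ⟨k1, y1, k2, k3⟩ := hz1.2 q hq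
      rw [← hzy hq]
      refine ⟨k1, y1, k2, fun P v => ?_⟩
      have k4 : HasDerivAt (fun t : ℂ => z (q + t • v) P) _ 0 := k3 P v
      refine HasDerivAt.congr_of_eventuallyEq k4 ?_
      have hcont : Tendsto (fun t : ℂ => q + t • v) (𝓝 0) (𝓝 q) := by
        have : Continuous fun t : ℂ => q + t • v := by fun_prop
        simpa using this.tendsto 0
      filter_upwards [hcont.eventually (h1.mem_nhds hq)] with t ht
      rw [hzy ht]
  refine ⟨y', ⟨fun P p hp => ?_, fun p hp => ?_⟩, hy'⟩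
  · obtain ⟨N, h1, h2, h3, h4⟩ := hloc p hp
    exact ((h4.1 P).continuousAt (h1.mem_nhds h2)).continuousWithinAt
  · obtain ⟨N, h1, h2, h3, h4⟩ := hloc p hp
    exact h4.2 p h2

end Pool.Agent.QC
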