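import Pool.Agent.QC.Defs

/-!
# MP_7c50a9_lc: the translation `shift`
-/

set_option autoImplicit false

namespace Pool.Agent.QC.An

open MvPolynomial

variable {n : ℕ}

theorem shift_X_last (z : ℂ) : shift z (X (Fin.last n)) = X (Fin.last n) + C z := by
  simp [shift]

theorem shift_X_castSucc (z : ℂ) (i : Fin n) : shift z (X i.castSucc) = X i.castSucc := by
  simp [shift]

theorem shift_C (z c : ℂ) : shift z (C c : Pol (n + 1)) = C c := by
  rw [← algebraMap_eq]
  exact (shift z).commutes c

theorem shift_shift (z w : ℂ) (P : Pol (n + 1)) : shift z (shift w P) = shift (z + w) P := by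
  have h : (shift z).comp (shift w) = (shift (z + w) : Pol (n + 1) →ₐ[ℂ] Pol (n + 1)) := by
    refine MvPolynomial.algHom_ext fun i => ?_
    induction i using Fin.lastCases with
    | last =>
      rw [AlgHom.comp_apply, shift_X_last, shift_X_last, map_add, shift_X_last, shift_C, C_add]
      ring
    | cast i => rw [AlgHom.comp_apply, shift_X_castSucc, shift_X_castSucc, shift_X_castSucc]
  rw [← h]
  rfl

theorem shift_zero (P : Pol (n + 1)) : shift 0 P = P := by
  have h : (shift 0 : Pol (n + 1) →ₐ[ℂ] Pol (n + 1)) = AlgHom.id ℂ _ := by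
    refine MvPolynomial.algHom_ext fun i => ?_
    induction i using Fin.lastCases with
    | last => rw [shift_X_last, C_0, add_zero]; rfl
    | cast i => rw [shift_X_castSucc]; rfl
  rw [h]
  rfl

theorem shift_neg_shift (z : ℂ) (P : Pol (n + 1)) : shift z (shift (-z) P) = P := by
  rw [shift_shift, add_neg_cancel, shift_zero]

theorem shift_shift_neg (z : ℂ) (P : Pol (n + 1)) : shift (-z) (shift z P) = P := by
  rw [shift_shift, neg_add_cancel, shift_zero]

theorem pderiv_castSucc_shift (z : ℂ) (i : Fin n) (P : Pol (n + 1)) :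
    pderiv i.castSucc (shift z P) = shift z (pderiv i.castSucc P) := by
  induction P using MvPolynomial.induction_on with
  | C c => rw [shift_C, pderiv_C, map_zero]
  | add P Q hP hQ => rw [map_add, map_add, map_add, map_add, hP, hQ]
  | mul_X P j hP =>
    rw [map_mul, pderiv_mul, pderiv_mul, hP, map_add, map_mul, map_mul]
    congr 2
    induction j using Fin.lastCases with
    | last =>
      rw [shift_X_last, map_add, pderiv_C, add_zero, pderiv_X_of_ne (Fin.castSucc_lt_last i).ne',
        map_zero]
    | cast j =>
      rw [shift_X_castSucc]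
      by_cases hij : j = i
      · subst hij
        rw [pderiv_X_self, map_one]
      · rw [pderiv_X_of_ne (fun h => hij (Fin.castSucc_injective n h)), map_zero]

theorem pderiv_last_shift (z : ℂ) (P : Pol (n + 1)) :
    pderiv (Fin.last n) (shift z P) = shift z (pderiv (Fin.last n) P) := by
  induction P using MvPolynomial.induction_on with
  | C c => rw [shift_C, pderiv_C, map_zero]
  | add P Q hP hQ => rw [map_add, map_add, map_add, map_add, hP, hQ]
  | mul_X P j hP =>
    rw [map_mul, pderiv_mul, pderiv_mul, hP, map_add, map_mul, map_mul]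
    congr 2
    induction j using Fin.lastCases with
    | last => rw [shift_X_last, map_add, pderiv_C, add_zero, pderiv_X_self, map_one]
    | cast j =>
      rw [shift_X_castSucc, pderiv_X_of_ne (Fin.castSucc_lt_last j).ne, map_zero]

/-- `P (x', x_n + T)` as a polynomial in `T`. -/
noncomputable def shC : Pol (n + 1) →ₐ[ℂ] Polynomial (Pol (n + 1)) :=
  aeval (Fin.snoc (fun i : Fin n => (Polynomial.C (X i.castSucc) : Polynomial (Pol (n + 1))))
    (Polynomial.C (X (Fin.last n)) + Polynomial.X) : Fin (n + 1) → Polynomial (Pol (n + 1)))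

theorem shC_X_last : shC (X (Fin.last n)) = Polynomial.C (X (Fin.last n)) + Polynomial.X := by
  simp [shC]

theorem shC_X_castSucc (i : Fin n) : shC (X i.castSucc) = Polynomial.C (X i.castSucc) := by
  simp [shC]

theorem shC_C (c : ℂ) : shC (C c : Pol (n + 1)) = Polynomial.C (C c) := by
  rw [← algebraMap_eq]
  exact shC.commutes c

theorem shC_eval (u : ℂ) (P : Pol (n + 1)) : (shC P).eval (C u) = shift u P := by
  induction P using MvPolynomial.induction_on with
  | C c => rw [shift_C, shC_C, Polynomial.eval_C]
  | add P Q hP hQ => rw [map_add, map_add, Polynomial.eval_add, hP, hQ]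
  | mul_X P j hP =>
    rw [map_mul, map_mul, Polynomial.eval_mul, hP]
    congr 1
    induction j using Fin.lastCases with
    | last => rw [shC_X_last, shift_X_last, Polynomial.eval_add, Polynomial.eval_C,
        Polynomial.eval_X]
    | cast j => rw [shC_X_castSucc, shift_X_castSucc, Polynomial.eval_C]

theorem shC_derivative (P : Pol (n + 1)) :
    Polynomial.derivative (shC P) = shC (pderiv (Fin.last n) P) := by
  induction P using MvPolynomial.induction_on with
  | C c => rw [shC_C, pderiv_C, map_zero, Polynomial.derivative_C]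
  | add P Q hP hQ => rw [map_add, map_add, map_add, map_add, hP, hQ]
  | mul_X P j hP =>
    have h : Polynomial.derivative (shC (X j)) = shC (pderiv (Fin.last n) (X j)) := by
      induction j using Fin.lastCases with
      | last =>
        rw [shC_X_last, Polynomial.derivative_add, Polynomial.derivative_C, zero_add,
          Polynomial.derivative_X, pderiv_X_self, map_one]
      | cast j =>
        rw [shC_X_castSucc, Polynomial.derivative_C,
          pderiv_X_of_ne (Fin.castSucc_lt_last j).ne, map_zero]
    rw [map_mul, Polynomial.derivative_mul, pderiv_mul, hP, h, map_add, map_mul, map_mul]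

/-- The coefficients of `P (x', x_n + T)`. -/
noncomputable def tc (P : Pol (n + 1)) (k : ℕ) : Pol (n + 1) := (shC P).coeff k

/-- A bound for the degree in `T`. -/
noncomputable def td (P : Pol (n + 1)) : ℕ := (shC P).natDegree + 1

theorem shift_eq_sum (u : ℂ) (P : Pol (n + 1)) :
    shift u P = ∑ k ∈ Finset.range (td P), u ^ k • tc P k := by
  rw [← shC_eval, Polynomial.eval_eq_sum_range]
  refine Finset.sum_congr rfl fun k _ => ?_
  rw [← C_pow, mul_comm, C_mul']
  rfl

theorem map_shift (y : Fnl (n + 1)) (u : ℂ) (P : Pol (n + 1)) :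
    y (shift u P) = ∑ k ∈ Finset.range (td P), u ^ k * y (tc P k) := by
  rw [shift_eq_sum, map_sum]
  refine Finset.sum_congr rfl fun k _ => ?_
  rw [map_smul, smul_eq_mul]

theorem map_pderiv_shift (y : Fnl (n + 1)) (u : ℂ) (P : Pol (n + 1)) :
    y (pderiv (Fin.last n) (shift u P)) =
      ∑ k ∈ Finset.range (td P), (k * u ^ (k - 1)) * y (tc P k) := by
  rw [pderiv_last_shift, ← shC_eval, ← shC_derivative, Polynomial.derivative_eval,
    Polynomial.sum_over_range _ (by simp), map_sum]
  refine Finset.sum_congr rfl fun k _ => ?_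
  have h : (shC P).coeff k * (k : Pol (n + 1)) * (C u) ^ (k - 1) = (k * u ^ (k - 1)) • tc P k := by
    rw [← C_pow, ← C_mul', C_mul]
    have h2 : (k : Pol (n + 1)) = C (k : ℂ) := (map_natCast C k).symm
    rw [h2, tc]
    ring
  rw [h, map_smul, smul_eq_mul]

/-- The derivative of `u ↦ y (shift u P)`. -/
theorem hasDerivAt_shift (y : Fnl (n + 1)) (u : ℂ) (P : Pol (n + 1)) :
    HasDerivAt (fun u => y (shift u P)) (y (pderiv (Fin.last n) (shift u P))) u := by
  rw [map_pderiv_shift]
  have e : (fun u => y (shift u P)) =
      fun u => ∑ k ∈ Finset.range (td P), u ^ k * y (tc P k) := by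
    funext u
    exact map_shift y u P
  rw [e]
  refine HasDerivAt.fun_sum fun k _ => ?_
  exact (hasDerivAt_pow k u).mul_const _

end Pool.Agent.QC.An
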