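import Pool.Agent.QC.Conn.Line
import Pool.Agent.QC.Loc.LocKTS

/-!
# The connection of a one parameter family at a nondegenerate zero
-/

set_option autoImplicit false

namespace Pool.Agent.QC

open MvPolynomial Pool.Agent.QC.Ode Pool.Agent.QC.Loc Filter Topology Set

variable {m D : ℕ} {e : Fin m → ℕ} {a : ℂ} {c : Fin m → ℂ} {G : ℂ → Cf m D}

attribute [local irreducible] mulMat

/-- The operator `mu`. -/
noncomputable def muO (e : Fin m → ℕ) (a : ℂ) (c : Fin m → ℂ) (G : ℂ → Cf m D) (z : ℂ) :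
    BV D e →L[ℂ] BV D e := mA (mulMat e (a - 1) c (G z) (G z))

/-- The operator of the numerator. -/
noncomputable def nuO (e : Fin m → ℕ) (a : ℂ) (c : Fin m → ℂ) (G : ℂ → Cf m D) (z : ℂ) :
    BV D e →L[ℂ] BV D e := a • mA (mulMat e (a - 1) c (fderiv ℂ G z 1) (G z))

theorem conW_one_eq (e : Fin m → ℕ) (a : ℂ) (c : Fin m → ℂ) (G : ℂ → Cf m D) :
    (fun z => conW e a c G z 1) = fun z => nuO e a c G z * Ring.inverse (muO e a c G z) := by
  funext z
  rw [conW_apply, nuO, muO, smul_mul_assoc]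

/-- The box vector of the evaluation. -/
noncomputable def v0O (D : ℕ) (e : Fin m → ℕ) (w : Fin m → ℂ) : BV D e := bx D e (evL w)

/-- The derivative of `exF` in one variable when the vector vanishes. -/
theorem hasDerivAt_exF_zero {a' : ℂ} {v : ℂ → BV D e} {v' : BV D e} {z0 : ℂ}
    (hG : DifferentiableAt ℂ G z0) (hv : HasDerivAt v v' z0) (hv0 : v z0 = 0) (P : Pol m) :
    HasDerivAt (fun z => exF e a' c (G z) (v z) P) (exF e a' c (G z0) v' P) z0 := by
  simp only [exF_apply]
  refine HasDerivAt.fun_sum fun b _ => ?_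
  have h1 : DifferentiableAt ℂ (fun G : Cf m D => eval G (red e a' c P b)) (G z0) :=
    ((contDiff_eval ℂ _ (n := 1)).differentiable one_ne_zero) _
  have h2 : DifferentiableAt ℂ (fun z => eval (G z) (red e a' c P b)) z0 := h1.comp z0 hG
  have h3 : HasDerivAt (fun z => prj b (v z)) (prj b v') z0 :=
    (prj b).hasFDerivAt.comp_hasDerivAt z0 hv
  have h4 := h2.hasDerivAt.mul h3
  rw [hv0, map_zero, mul_zero, zero_add] at h4
  exact h4

namespace Fam

variable (H : Fam e a c G)
include H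

theorem analyticAt_muO (z0 : ℂ) : AnalyticAt ℂ (muO e a c G) z0 := by
  have h1 : Differentiable ℂ (muO e a c G) := fun z =>
    (H.contDiffAt_mul (a - 1) (H.F_contDiffAt z) one_le_two).differentiableAt one_ne_zero
  exact h1.analyticAt z0

theorem analyticAt_nuO (z0 : ℂ) : AnalyticAt ℂ (nuO e a c G) z0 := by
  have h1 : Differentiable ℂ (nuO e a c G) := by
    intro z
    have h2 : ContDiffAt ℂ 1 (fun z => fderiv ℂ G z 1) z :=
      ((H.hF.fderiv_right (m := 1) (by norm_num)).contDiffAt).clm_apply contDiffAt_const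
    exact ((H.contDiffAt_mul (a - 1) h2 one_le_two).differentiableAt one_ne_zero).const_smul a
  exact h1.analyticAt z0

variable {w : Fin m → ℂ} {z0 : ℂ} (hw : NZ e (pol (G z0)) w)
include hw

theorem v0_ne : v0O D e w ≠ 0 := by
  intro h
  have h1 := exF_box H.he H.hD H.ha (H.top z0) (evL_mem hw.f0 hw.th0 a)
  rw [show bx D e (evL w) = 0 from h] at h1
  have h2 : evL w 1 = 0 := by
    rw [← h1, exF_apply]
    exact Finset.sum_eq_zero fun b _ => by rw [map_zero, mul_zero]
  rw [evL_apply, map_one] at h2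
  exact one_ne_zero h2

theorem muO_v0 : muO e a c G z0 (v0O D e w) = 0 := by
  unfold muO v0O
  rw [mA_mulMat H.he H.hD H.ha.sub_one _ (H.top z0) (evL_mem hw.f0 hw.th0 _)]
  refine BV.ext fun b => ?_
  rw [prj_bx, lm_apply, evL_apply, map_mul, hw.f0, zero_mul, map_zero]

theorem nuO_v0 : nuO e a c G z0 (v0O D e w) =
    (a * eval w (pol (fderiv ℂ G z0 1))) • v0O D e w := by
  unfold nuO v0O
  rw [smul_apply, mA_mulMat H.he H.hD H.ha.sub_one _ (H.top z0) (evL_mem hw.f0 hw.th0 _),
    mul_smul]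
  congr 1
  refine BV.ext fun b => ?_
  rw [prj_bx, lm_apply, evL_apply, map_mul, map_smul, prj_bx, evL_apply, smul_eq_mul]

theorem ker_muO {v : BV D e} (hv : muO e a c G z0 v = 0) : ∃ t : ℂ, v = t • v0O D e w := by
  have h1 := exF_spec (c := c) H.he H.hD H.ha.sub_one (H.top z0) v
  set y := exF e (a - 1) c (G z0) v with hy
  have h2 := mA_mulMat H.he H.hD H.ha.sub_one (G z0) (H.top z0) h1.1
  rw [h1.2] at h2
  have h3 : bx D e (lm (pol (G z0)) y) = 0 := h2.symm.trans hv
  have h4 : lm (pol (G z0)) y ∈ Zs e a (pol (G z0)) := comp_mul_mem h1.1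
  have h5 : lm (pol (G z0)) y = 0 := box_inj H.he H.hD (H.top z0) H.ha h4 fun b => by
    rw [← prj_bx (D := D) (e := e), h3, map_zero]
  obtain ⟨t, ht⟩ := loc_K H.ha.ne_zero hw h1.1 (fun P => LinearMap.congr_fun h5 P)
  refine ⟨t, ?_⟩
  rw [← h1.2]
  refine BV.ext fun b => ?_
  rw [prj_bx, ht, map_smul, v0O, prj_bx, evL_apply, smul_eq_mul]

theorem exF_v0 {a' : ℂ} (ha' : IrrC a') (t : ℂ) : exF e a' c (G z0) (t • v0O D e w) = t • evL w := by
  have h1 := exF_box (c := c) H.he H.hD ha' (H.top z0)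
    ((Zs e a' (pol (G z0))).smul_mem t (evL_mem hw.f0 hw.th0 a'))
  rw [map_smul] at h1
  exact h1

/-- The two functionals of a curve of box vectors through a multiple of `v0`. -/
theorem curve_E1 {v : ℂ → BV D e} (hv : DifferentiableAt ℂ v z0) {t : ℂ}
    (hv0 : v z0 = t • v0O D e w) {u : BV D e}
    (hu : HasDerivAt (fun z => muO e a c G z (v z)) u z0) :
    ∃ E1 : Fnl m, (∀ P, exF e a c (G z0) u P = E1 (pol (G z0) * P) +
        t * eval w (pol (fderiv ℂ G z0 1) * P)) ∧
      ∀ i P, E1 (Dop e (a - 1) (pol (G z0)) i P) =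
        -(t * eval w (Dop e (a - 1) (pol (fderiv ℂ G z0 1)) i P)) := by
  set Y : ℂ → Fnl m := fun z => exF e (a - 1) c (G z) (v z) with hY
  have hYd : DFn Y z0 := H.dFn_exF (a - 1) hv
  have hY0 : Y z0 = t • evL w := by
    show exF e (a - 1) c (G z0) (v z0) = _
    rw [hv0, H.exF_v0 hw H.ha.sub_one]
  have hβ0 : muO e a c G z0 (v z0) = 0 := by rw [hv0, map_smul, H.muO_v0 hw, smul_zero]
  have hyd : ∀ P, HasDerivAt (fun z => exF e a c (G z) (muO e a c G z (v z)) P)
      (exF e a c (G z0) u P) z0 := fun P => hasDerivAt_exF_zero (H.F_diff z0) hu hβ0 P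
  have hyD : DFn (fun z => exF e a c (G z) (muO e a c G z (v z))) z0 :=
    fun P => (hyd P).differentiableAt
  have hlow : ∀ z P, Y z (pol (G z) * P) = exF e a c (G z) (muO e a c G z (v z)) P := by
    intro z P
    have h1 := exF_spec (c := c) H.he H.hD H.ha.sub_one (H.top z) (v z)
    have h2 := mA_mulMat H.he H.hD H.ha.sub_one (G z) (H.top z) h1.1
    rw [h1.2] at h2
    have h3 : lm (pol (G z)) (Y z) ∈ Zs e a (pol (G z)) := comp_mul_mem h1.1
    have h4 := exF_box (c := c) H.he H.hD H.ha (H.top z) h3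
    have h5 : muO e a c G z (v z) = bx D e (lm (pol (G z)) (Y z)) := h2
    rw [h5, h4]
    rfl
  refine ⟨dfn Y z0 1, fun P => ?_, fun i P => ?_⟩
  · have h1 := dfn_low hyD hYd (H.F_diff z0) (Eventually.of_forall fun z P => hlow z P) 1 P
    rw [dfn_apply hyD, (hyd P).hasFDerivAt.fderiv, hY0] at h1
    rw [LinearMap.smul_apply, evL_apply, smul_eq_mul] at h1
    rw [← h1]
    simp
  · have h1 := dfn_Dop hYd (H.F_diff z0) (Eventually.of_forall fun z =>
      (exF_spec H.he H.hD H.ha.sub_one (H.top z) (v z)).1) 1 i P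
    rw [h1, hY0, LinearMap.smul_apply, evL_apply, smul_eq_mul]

variable (hg : eval w (pol (fderiv ℂ G z0 1)) ≠ 0)
include hg

theorem transv (v : BV D e) :
    muO e a c G z0 v + deriv (muO e a c G) z0 (v0O D e w) ≠ 0 := by
  intro h0
  set ve : ℂ → BV D e := fun z => v0O D e w + (z - z0) • v with hve
  have hd : HasDerivAt ve v z0 := by
    have h1 : HasDerivAt (fun z : ℂ => z - z0) 1 z0 := (hasDerivAt_id z0).sub_const z0
    have h2 := (h1.smul_const v).const_add (v0O D e w)
    rw [one_smul] at h2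
    exact h2
  have hmu : HasDerivAt (muO e a c G) (deriv (muO e a c G) z0) z0 :=
    (H.analyticAt_muO z0).differentiableAt.hasDerivAt
  have hve0 : ve z0 = v0O D e w := by simp [hve]
  have hu : HasDerivAt (fun z => muO e a c G z (ve z)) 0 z0 := by
    have h1 := hmu.clm_apply hd
    rw [hve0, add_comm, h0] at h1
    exact h1
  obtain ⟨E1, h1, h2⟩ := H.curve_E1 hw hd.differentiableAt (t := 1)
    (by rw [hve0, one_smul]) hu
  refine loc_T H.he hw H.ha.ne_zero hg ⟨E1, fun P => ?_, fun i P => ?_⟩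
  · have h3 := h1 P
    have h4 : exF e a c (G z0) (0 : BV D e) P = 0 := by
      rw [exF_apply]
      exact Finset.sum_eq_zero fun b _ => by rw [map_zero, mul_zero]
    rw [h4, one_mul] at h3
    linear_combination -h3
  · rw [h2, one_mul]

/-- The connection has a simple pole. -/
theorem hasPole {s : ℂ} (hs : s = a + (Fintype.card {i // e i = 0} : ℂ) / 2)
    (hsk : ∀ k : ℤ, (k : ℂ) ≠ s) :
    ∃ φ : BV D e →L[ℂ] ℂ, φ (v0O D e w) = 1 ∧
      HasPole (fun z => conW e a c G z 1) z0 (φ.smulRight (v0O D e w)) s ∧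
      ∀ᶠ z in 𝓝 z0, z ≠ z0 → z ∈ regS e G := by
  obtain ⟨S, lam, hS, hS0, hlam, hlam1, hinv⟩ := simple_inv (H.analyticAt_muO z0) (H.v0_ne hw)
    (H.muO_v0 hw) (fun v hv => H.ker_muO hw hv) (H.transv hw hg)
  have hSd : DifferentiableAt ℂ (fun z => S z (v0O D e w)) z0 :=
    hS.differentiableAt.clm_apply (differentiableAt_const _)
  have hSv0 : S z0 (v0O D e w) = lam (v0O D e w) • v0O D e w := by rw [hS0]; rfl
  have hu : HasDerivAt (fun z => muO e a c G z (S z (v0O D e w))) (v0O D e w) z0 := by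
    have h1 : HasDerivAt (fun z : ℂ => z - z0) 1 z0 := (hasDerivAt_id z0).sub_const z0
    have h2 := h1.smul_const (v0O D e w)
    rw [one_smul] at h2
    refine h2.congr_of_eventuallyEq ?_
    filter_upwards [hinv] with z hz
    have h3 := congrArg (fun f : BV D e →L[ℂ] BV D e => f (v0O D e w)) hz.1
    exact h3
  obtain ⟨E1, h1, h2⟩ := H.curve_E1 hw hSd hSv0 hu
  have h3 : ∀ P, exF e a c (G z0) (v0O D e w) P = eval w P := by
    intro P
    have h4 := H.exF_v0 hw H.ha 1
    rw [one_smul, one_smul] at h4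
    rw [h4, evL_apply]
  have h4 := loc_S (a := a) (c := lam (v0O D e w)) (g := pol (fderiv ℂ G z0 1)) (E1 := E1)
    H.he hw (fun P => by rw [← h3 P, h1 P, add_comm]) h2
  have hsl : s = (a * eval w (pol (fderiv ℂ G z0 1))) * lam (v0O D e w) := by
    rw [hs, ← h4]; ring
  have hl : lam (v0O D e w) ≠ 0 := fun h => hsk 0 (by rw [hsl, h]; simp)
  refine ⟨(1 / lam (v0O D e w)) • lam, ?_, ?_, ?_⟩
  · rw [smul_apply, smul_eq_mul, one_div, inv_mul_cancel₀ hl]
  · rw [conW_one_eq, hsl]
    have h5 := hasPole_of_simple (H.analyticAt_nuO z0) hS hS0 hinv (H.nuO_v0 hw)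
      (fun k hk => hsk k (by rw [hsl, hk]))
    convert h5 using 1
    ext v
    show ((1 / lam (v0O D e w)) * lam v) • v0O D e w =
      (1 / lam (v0O D e w)) • lam v • v0O D e w
    rw [mul_smul]
  · filter_upwards [hinv] with z hz hne
    have hne' : z - z0 ≠ 0 := sub_ne_zero.mpr hne
    rw [H.mem_reg_iff, ← Matrix.mulVec_injective_iff_isUnit]
    intro x y hxy
    have h5 : muO e a c G z (mkV x) = muO e a c G z (mkV y) := by
      unfold muO
      rw [mA_apply, mA_apply]
      exact congrArg mkV hxy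
    have h6 : ∀ v, S z (muO e a c G z v) = (z - z0) • v := fun v =>
      congrArg (fun f : BV D e →L[ℂ] BV D e => f v) hz.2
    have h7 : (z - z0) • (mkV x : BV D e) = (z - z0) • mkV y := by
      rw [← h6, ← h6, h5]
    exact smul_right_injective _ hne' h7

end Fam

end Pool.Agent.QC
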