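import Pool.Agent.QC.An.Cauchy
import Pool.Agent.QC.An.Shift
import Pool.Agent.QC.An.LowSec

/-!
# MP_7c50a9_lc, 3.2: the inner part of a section over an annulus is a section
-/

set_option autoImplicit false

namespace Pool.Agent.QC.An

open MvPolynomial Filter Topology Set Metric

section Family

variable {E : Type*} [NormedAddCommGroup E] [NormedSpace ℂ E] {n D : ℕ}
  {F : E × ℂ → Cf (n + 1) D}

/-- The family is shift invariant in the last parameter. -/
def ShF (F : E × ℂ → Cf (n + 1) D) : Prop :=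
  ∀ q z u, shift u (pol (F (q, z))) = pol (F (q, z + u))

theorem hasLineDerivAt_pol (hF : Differentiable ℂ F) (φ : Fnl (n + 1)) (p v : E × ℂ) :
    HasLineDerivAt ℂ (fun p => φ (pol (F p))) (φ (pol (fderiv ℂ F p v))) p v := by
  have e1 : (fun p => φ (pol (F p))) = fun p => ∑ d, F p d * φ (mond d) := by
    funext p
    exact map_pol φ LinearMap.id _
  have e2 : φ (pol (fderiv ℂ F p v)) = ∑ d, fderiv ℂ F p v d * φ (mond d) :=
    map_pol φ LinearMap.id _
  rw [e1, e2]
  unfold HasLineDerivAt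
  refine HasDerivAt.fun_sum fun d _ => ?_
  have h4 : HasFDerivAt (fun p => F p d) (ContinuousLinearMap.proj d ∘L fderiv ℂ F p) p :=
    hasFDerivAt_pi'.mp (hF p).hasFDerivAt d
  have h5 : HasDerivAt (fun t : ℂ => F (p + t • v) d) (fderiv ℂ F p v d) 0 := h4.hasLineDerivAt v
  exact h5.mul_const _

theorem fnl_ext {P Q : Pol (n + 1)} (h : ∀ φ : Fnl (n + 1), φ P = φ Q) : P = Q := by
  ext m
  exact h (lcoeff ℂ m)

theorem fderiv_shift (hF : Differentiable ℂ F) (hs : ShF F) (q : E) (z u : ℂ) (v : E × ℂ) :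
    shift u (pol (fderiv ℂ F (q, z) v)) = pol (fderiv ℂ F (q, z + u) v) := by
  refine fnl_ext fun φ => ?_
  have h1 : HasDerivAt (fun t : ℂ => (φ ∘ₗ (shift u).toLinearMap) (pol (F ((q, z) + t • v))))
      ((φ ∘ₗ (shift u).toLinearMap) (pol (fderiv ℂ F (q, z) v))) 0 :=
    hasLineDerivAt_pol hF _ _ _
  have h2 : HasDerivAt (fun t : ℂ => φ (pol (F ((q, z + u) + t • v))))
      (φ (pol (fderiv ℂ F (q, z + u) v))) 0 := hasLineDerivAt_pol hF φ _ _
  have e : (fun t : ℂ => (φ ∘ₗ (shift u).toLinearMap) (pol (F ((q, z) + t • v)))) =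
      fun t : ℂ => φ (pol (F ((q, z + u) + t • v))) := by
    funext t
    show φ (shift u (pol (F ((q, z) + t • v)))) = _
    have e1 : ((q, z) + t • v : E × ℂ) = (q + t • v.1, z + t • v.2) := rfl
    have e2 : ((q, z + u) + t • v : E × ℂ) = (q + t • v.1, z + t • v.2 + u) := by
      refine Prod.ext rfl ?_
      show z + u + t • v.2 = z + t • v.2 + u
      ring
    rw [e1, hs, e2]
  rw [e] at h1
  exact h1.unique h2

theorem fderiv_last (hF : Differentiable ℂ F) (hs : ShF F) (q : E) (z : ℂ) :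
    pol (fderiv ℂ F (q, z) (0, 1)) = pderiv (Fin.last n) (pol (F (q, z))) := by
  refine fnl_ext fun φ => ?_
  have h1 : HasDerivAt (fun t : ℂ => φ (pol (F ((q, z) + t • ((0 : E), (1 : ℂ))))))
      (φ (pol (fderiv ℂ F (q, z) (0, 1)))) 0 := hasLineDerivAt_pol hF φ _ _
  have h2 := hasDerivAt_shift φ 0 (pol (F (q, z)))
  rw [shift_zero] at h2
  have e : (fun t : ℂ => φ (pol (F ((q, z) + t • ((0 : E), (1 : ℂ)))))) =
      fun t : ℂ => φ (shift t (pol (F (q, z)))) := by
    funext t
    rw [hs]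
    congr 3
    refine Prod.ext ?_ ?_
    · show q + t • (0 : E) = q
      rw [smul_zero, add_zero]
    · show z + t • (1 : ℂ) = z + t
      rw [smul_eq_mul, mul_one]
  rw [e] at h1
  exact h1.unique h2

end Family

section Inn

variable {E : Type*} {n : ℕ}

open Classical in
/-- The inner part (Cauchy integral over the circle of radius `ρ`). -/
noncomputable def inn (ρ : ℝ) (y : E × ℂ → Fnl (n + 1)) (p : E × ℂ) : Fnl (n + 1) :=
  if h : ∀ P, CircleIntegrable (fun w => (w - p.2)⁻¹ * y (p.1, w) (shift (w - p.2) P)) 0 ρ then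
    { toFun := fun P => (2 * Real.pi * Complex.I)⁻¹ *
        ∮ w in C(0, ρ), (w - p.2)⁻¹ * y (p.1, w) (shift (w - p.2) P)
      map_add' := fun P Q => by
        rw [← mul_add, ← circleIntegral.integral_add (h P) (h Q)]
        congr 2
        funext w
        rw [map_add, map_add, mul_add]
      map_smul' := fun c P => by
        have h1 : (∮ w in C(0, ρ), (w - p.2)⁻¹ * y (p.1, w) (shift (w - p.2) (c • P))) =
            c * ∮ w in C(0, ρ), (w - p.2)⁻¹ * y (p.1, w) (shift (w - p.2) P) := by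
          rw [← circleIntegral.integral_const_mul]
          congr 1
          funext w
          rw [map_smul, map_smul, smul_eq_mul]
          ring
        rw [RingHom.id_apply, smul_eq_mul, h1]
        ring }
  else 0

variable {ρ : ℝ} {y : E × ℂ → Fnl (n + 1)} {q : E} {z : ℂ}

theorem sub_ne {w : ℂ} (hz : ‖z‖ < ρ) (hw : w ∈ sphere (0 : ℂ) ρ) : w - z ≠ 0 := by
  intro h
  rw [mem_sphere_zero_iff_norm] at hw
  rw [← sub_eq_zero.mp h, hw] at hz
  exact lt_irrefl _ hz

theorem cont_shift {S : Set ℂ} (hy : ∀ P, ContinuousOn (fun w => y (q, w) P) S) (P : Pol (n + 1)) :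
    ContinuousOn (fun w => y (q, w) (shift (w - z) P)) S := by
  simp only [map_shift]
  refine continuousOn_finsetSum _ fun k _ => ?_
  exact ContinuousOn.mul (by fun_prop) (hy _)

theorem cont_inv (hz : ‖z‖ < ρ) : ContinuousOn (fun w : ℂ => (w - z)⁻¹) (sphere 0 ρ) :=
  (continuousOn_id.sub continuousOn_const).inv₀ fun _ hw => sub_ne hz hw

theorem inn_apply (hρ : 0 < ρ) (hz : ‖z‖ < ρ)
    (hy : ∀ P, ContinuousOn (fun w => y (q, w) P) (sphere 0 ρ)) (P : Pol (n + 1)) :
    inn ρ y (q, z) P = (2 * Real.pi * Complex.I)⁻¹ *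
      ∮ w in C(0, ρ), (w - z)⁻¹ * y (q, w) (shift (w - z) P) := by
  have h : ∀ P, CircleIntegrable (fun w => (w - z)⁻¹ * y (q, w) (shift (w - z) P)) 0 ρ := fun P =>
    ((cont_inv hz).mul (cont_shift hy P)).circleIntegrable hρ.le
  unfold inn
  rw [dif_pos h]
  rfl

theorem inn_sum (hρ : 0 < ρ) (hz : ‖z‖ < ρ)
    (hy : ∀ P, ContinuousOn (fun w => y (q, w) P) (sphere 0 ρ)) (P : Pol (n + 1)) :
    inn ρ y (q, z) P = ∑ k ∈ Finset.range (td P), (2 * Real.pi * Complex.I)⁻¹ *
      ∮ w in C(0, ρ), (w - z) ^ ((k : ℤ) - 1) * y (q, w) (tc P k) := by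
  rw [inn_apply hρ hz hy, ← Finset.mul_sum, ← circleIntegral.integral_fun_sum]
  · congr 1
    refine circleIntegral.integral_congr hρ.le fun w hw => ?_
    rw [map_shift, Finset.mul_sum]
    refine Finset.sum_congr rfl fun k _ => ?_
    rw [zpow_sub_one₀ (sub_ne hz hw), zpow_natCast]
    ring
  · intro k _
    refine ContinuousOn.circleIntegrable hρ.le (ContinuousOn.mul ?_ (hy _))
    exact ContinuousOn.zpow₀ (by fun_prop) _ fun w hw => Or.inl (sub_ne hz hw)

end Inn

section Main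

variable {E : Type*} [NormedAddCommGroup E] [NormedSpace ℂ E] {n D : ℕ}
  {F : E × ℂ → Cf (n + 1) D} {N : Set E} {A : Set ℂ} {ρ : ℝ} {a : ℂ} {y y' : E × ℂ → Fnl (n + 1)}

theorem th_castSucc (b : ℂ) (f : Pol (n + 1)) (i : Fin n) (P : Pol (n + 1)) (u : ℂ) :
    shift u (Dop (eV n) b f i.castSucc P) = Dop (eV n) b (shift u f) i.castSucc (shift u P) := by
  have h : eV n i.castSucc = 0 := by
    unfold eV
    rw [if_neg (Fin.castSucc_lt_last i).ne]
  simp only [Dop, th, h, pow_zero, one_mul, map_add, map_mul, shift_C, pderiv_castSucc_shift]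

theorem th_last (b : ℂ) (f : Pol (n + 1)) (P : Pol (n + 1)) (u : ℂ) :
    shift u (Dop (eV n) b f (Fin.last n) P) =
      Dop (eV n) b (shift u f) (Fin.last n) (shift u P) +
      u • (C (b + 1) * pderiv (Fin.last n) (shift u f) * shift u P +
        shift u f * pderiv (Fin.last n) (shift u P)) := by
  have h : eV n (Fin.last n) = 1 := by
    unfold eV
    rw [if_pos rfl]
  simp only [Dop, th, h, pow_one, map_add, map_mul, shift_C, pderiv_last_shift, shift_X_last,
    ← C_mul']
  ring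

/-- Total derivative. -/
theorem total_deriv (hF : Differentiable ℂ F) (hs : ShF F)
    (hy : Sol (eV n) a F (N ×ˢ A) y)
    (hl : ∀ p ∈ N ×ˢ A, Low (eV n) a (pol (F p)) (y p) (y' p)) (ha : a ≠ 0)
    (hX : ∀ p ∈ N ×ˢ A, Reg (eV n) (pol (F p))) {q : E} (hq : q ∈ N) {w : ℂ} (hw : w ∈ A) (z : ℂ)
    (P : Pol (n + 1)) :
    HasDerivAt (fun w => y (q, w) (shift (w - z) P))
      (y' (q, w) (C a * pderiv (Fin.last n) (pol (F (q, w))) * shift (w - z) P +
        pol (F (q, w)) * pderiv (Fin.last n) (shift (w - z) P))) w := by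
  have hp : (q, w) ∈ N ×ˢ A := ⟨hq, hw⟩
  have hz : ∀ Q, HasDerivAt (fun w => y (q, w) Q)
      (a * y' (q, w) (pderiv (Fin.last n) (pol (F (q, w))) * Q)) w := by
    intro Q
    obtain ⟨-, y1, h2, h3⟩ := hy.2 (q, w) hp
    have h4 : y1 = y' (q, w) := low_unique ha (hX _ hp) h2 (hl _ hp)
    have h5 : HasDerivAt (fun t : ℂ => y ((q, w) + t • ((0 : E), (1 : ℂ))) Q) _ 0 := h3 Q (0, 1)
    rw [fderiv_last hF hs, h4] at h5
    have b2 : HasDerivAt (fun t : ℂ => y ((q, w) + t • ((0 : E), (1 : ℂ))) Q)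
        (a * y' (q, w) (pderiv (Fin.last n) (pol (F (q, w))) * Q)) (w - w) := by
      rw [sub_self]; exact h5
    have b3 := b2.comp_sub_const w w
    refine b3.congr_of_eventuallyEq (Eventually.of_forall fun s => ?_)
    simp only
    congr 2
    refine Prod.ext ?_ ?_
    · simp
    · simp
  have e1 : (fun w => y (q, w) (shift (w - z) P)) =
      fun w => ∑ k ∈ Finset.range (td P), (w - z) ^ k * y (q, w) (tc P k) := by
    funext w
    exact map_shift _ _ _
  rw [e1]
  have h1 : HasDerivAt (fun w => ∑ k ∈ Finset.range (td P), (w - z) ^ k * y (q, w) (tc P k))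
      (∑ k ∈ Finset.range (td P), ((k * (w - z) ^ (k - 1)) * y (q, w) (tc P k) +
        (w - z) ^ k * (a * y' (q, w) (pderiv (Fin.last n) (pol (F (q, w))) * tc P k)))) w := by
    refine HasDerivAt.fun_sum fun k _ => ?_
    have a1 : HasDerivAt (fun w : ℂ => w - z) 1 w := (hasDerivAt_id w).sub_const z
    have a2 : HasDerivAt (fun w : ℂ => (w - z) ^ k) ((k : ℂ) * (w - z) ^ (k - 1)) w := by
      have a4 := a1.pow k
      rw [mul_one] at a4
      exact a4
    exact a2.mul (hz (tc P k))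
  have h2 : (∑ k ∈ Finset.range (td P), ((k * (w - z) ^ (k - 1)) * y (q, w) (tc P k) +
        (w - z) ^ k * (a * y' (q, w) (pderiv (Fin.last n) (pol (F (q, w))) * tc P k)))) =
      y' (q, w) (C a * pderiv (Fin.last n) (pol (F (q, w))) * shift (w - z) P +
        pol (F (q, w)) * pderiv (Fin.last n) (shift (w - z) P)) := by
    rw [Finset.sum_add_distrib, ← map_pderiv_shift, map_add, (hl _ hp).2, add_comm]
    congr 1
    have h3 : (∑ k ∈ Finset.range (td P),
        (w - z) ^ k * (a * y' (q, w) (pderiv (Fin.last n) (pol (F (q, w))) * tc P k))) =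
        a * (y' (q, w) ∘ₗ LinearMap.mulLeft ℂ (pderiv (Fin.last n) (pol (F (q, w)))))
          (shift (w - z) P) := by
      rw [map_shift, Finset.mul_sum]
      refine Finset.sum_congr rfl fun k _ => ?_
      simp only [LinearMap.comp_apply, LinearMap.mulLeft_apply]
      ring
    rw [h3, LinearMap.comp_apply, LinearMap.mulLeft_apply, mul_assoc, C_mul', map_smul,
      smul_eq_mul]
  rw [h2] at h1
  exact h1

variable (hρ : 0 < ρ) (hA : sphere (0 : ℂ) ρ ⊆ A)

include hρ hA in
/-- The inner part of `y'` is below the inner part of `y`. -/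
theorem inn_low (hF : Differentiable ℂ F) (hs : ShF F)
    (hy : Sol (eV n) a F (N ×ˢ A) y) (hy' : Sol (eV n) (a - 1) F (N ×ˢ A) y')
    (hl : ∀ p ∈ N ×ˢ A, Low (eV n) a (pol (F p)) (y p) (y' p)) (ha : a ≠ 0)
    (hX : ∀ p ∈ N ×ˢ A, Reg (eV n) (pol (F p))) {q : E} (hq : q ∈ N) {z : ℂ} (hz : ‖z‖ < ρ) :
    Low (eV n) a (pol (F (q, z))) (inn ρ y (q, z)) (inn ρ y' (q, z)) := by
  have hm : MapsTo (fun w : ℂ => (q, w)) (sphere 0 ρ) (N ×ˢ A) := fun w hw => ⟨hq, hA hw⟩
  have hc : ContinuousOn (fun w : ℂ => (q, w)) (sphere 0 ρ) := by fun_prop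
  have hyc : ∀ P, ContinuousOn (fun w => y (q, w) P) (sphere 0 ρ) := fun P => (hy.1 P).comp hc hm
  have hyc' : ∀ P, ContinuousOn (fun w => y' (q, w) P) (sphere 0 ρ) :=
    fun P => (hy'.1 P).comp hc hm
  have hsh : ∀ w, shift (w - z) (pol (F (q, z))) = pol (F (q, w)) := fun w => by
    rw [hs, add_sub_cancel]
  refine ⟨fun i P => ?_, fun P => ?_⟩
  · rw [inn_apply hρ hz hyc']
    refine mul_eq_zero_of_right _ ?_
    induction i using Fin.lastCases with
    | last =>
      have h1 : (∮ w in C(0, ρ), (w - z)⁻¹ * y' (q, w) (shift (w - z)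
          (Dop (eV n) (a - 1) (pol (F (q, z))) (Fin.last n) P))) =
          ∮ w in C(0, ρ), y' (q, w) (C a * pderiv (Fin.last n) (pol (F (q, w))) *
            shift (w - z) P + pol (F (q, w)) * pderiv (Fin.last n) (shift (w - z) P)) := by
        refine circleIntegral.integral_congr hρ.le fun w hw => ?_
        have h2 : y' (q, w) (Dop (eV n) (a - 1) (pol (F (q, w))) (Fin.last n)
            (shift (w - z) P)) = 0 := (hy'.2 _ (hm hw)).1 _ _
        rw [th_last, hsh, map_add, h2, zero_add, map_smul, smul_eq_mul, ← mul_assoc,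
          inv_mul_cancel₀ (sub_ne hz hw), one_mul, sub_add_cancel]
      rw [h1]
      refine circleIntegral.integral_eq_zero_of_hasDerivWithinAt hρ.le fun w hw =>
        (total_deriv hF hs hy hl ha hX hq (hA hw) z P).hasDerivWithinAt
    | cast i =>
      have h1 : (∮ w in C(0, ρ), (w - z)⁻¹ * y' (q, w) (shift (w - z)
          (Dop (eV n) (a - 1) (pol (F (q, z))) i.castSucc P))) =
          ∮ w in C(0, ρ), (0 : ℂ) * (w - z)⁻¹ := by
        refine circleIntegral.integral_congr hρ.le fun w hw => ?_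
        have h2 : y' (q, w) (Dop (eV n) (a - 1) (pol (F (q, w))) i.castSucc
            (shift (w - z) P)) = 0 := (hy'.2 _ (hm hw)).1 _ _
        rw [th_castSucc, hsh, h2, mul_zero, zero_mul]
      rw [h1, circleIntegral.integral_const_mul, zero_mul]
  · rw [inn_apply hρ hz hyc', inn_apply hρ hz hyc]
    congr 1
    refine circleIntegral.integral_congr hρ.le fun w hw => ?_
    rw [map_mul, hsh, (hl _ (hm hw)).2]

include hρ hA in
/-- The inner part of a solution is a solution. -/
theorem inn_sol (hN : IsOpen N) (hF : ContDiff ℂ 1 F) (hs : ShF F)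
    (hy : Sol (eV n) a F (N ×ˢ A) y) (hy' : Sol (eV n) (a - 1) F (N ×ˢ A) y')
    (hl : ∀ p ∈ N ×ˢ A, Low (eV n) a (pol (F p)) (y p) (y' p)) (ha : a ≠ 0)
    (hX : ∀ p ∈ N ×ˢ A, Reg (eV n) (pol (F p))) :
    Sol (eV n) a F (N ×ˢ ball (0 : ℂ) ρ) (inn ρ y) := by
  have hFd : Differentiable ℂ F := hF.differentiable one_ne_zero
  have hm : ∀ q ∈ N, MapsTo (fun w : ℂ => (q, w)) (sphere 0 ρ) (N ×ˢ A) :=
    fun q hq w hw => ⟨hq, hA hw⟩
  have hc : ∀ q : E, ContinuousOn (fun w : ℂ => (q, w)) (sphere 0 ρ) := fun q => by fun_prop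
  have hyc : ∀ q ∈ N, ∀ P, ContinuousOn (fun w => y (q, w) P) (sphere 0 ρ) :=
    fun q hq P => (hy.1 P).comp (hc q) (hm q hq)
  have hyc' : ∀ q ∈ N, ∀ P, ContinuousOn (fun w => y' (q, w) P) (sphere 0 ρ) :=
    fun q hq P => (hy'.1 P).comp (hc q) (hm q hq)
  have hzρ : ∀ {z : ℂ}, z ∈ ball (0 : ℂ) ρ → ‖z‖ < ρ := fun hz => by simpa using hz
  refine ⟨fun P => ?_, fun p hp => ?_⟩
  · have h1 : ContinuousOn (fun p : E × ℂ => ∑ k ∈ Finset.range (td P),
        (2 * Real.pi * Complex.I)⁻¹ *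
          ∮ w in C(0, ρ), (w - p.2) ^ ((k : ℤ) - 1) * y (p.1, w) (tc P k))
        (N ×ˢ ball (0 : ℂ) ρ) := by
      refine continuousOn_finsetSum _ fun k _ => continuousOn_const.mul ?_
      exact kernel_cont hρ hA (j := fun p => y p (tc P k)) (hy.1 _) _
    refine h1.congr fun p hp => ?_
    obtain ⟨q, z⟩ := p
    exact inn_sum hρ (hzρ hp.2) (hyc q hp.1) P
  · obtain ⟨q, z⟩ := p
    have hq : q ∈ N := hp.1
    have hz : ‖z‖ < ρ := hzρ hp.2
    have hlow := inn_low hρ hA hFd hs hy hy' hl ha hX hq hz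
    have hmem : inn ρ y (q, z) ∈ Zs (eV n) a (pol (F (q, z))) := by
      have h1 := comp_mul_mem hlow.1
      have h2 : inn ρ y' (q, z) ∘ₗ LinearMap.mulLeft ℂ (pol (F (q, z))) = inn ρ y (q, z) :=
        LinearMap.ext fun P => hlow.2 P
      rwa [h2] at h1
    refine ⟨hmem, inn ρ y' (q, z), hlow, fun P v => ?_⟩
    -- the line derivative
    set dfun : E × ℂ → Pol (n + 1) → E × ℂ → ℂ := fun v Q p =>
      a * y' p (pol (fderiv ℂ F p v) * Q) with hdfun
    have hcd : ∀ v Q, ContinuousOn (dfun v Q) (N ×ˢ A) := by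
      intro v Q
      refine continuousOn_const.mul (continuousOn_pol_mul hy'.1 ?_ Q)
      have h3 : Continuous fun p => fderiv ℂ F p v :=
        (hF.continuous_fderiv one_ne_zero).clm_apply continuous_const
      exact h3.continuousOn
    have hld : ∀ v Q, ∀ p ∈ N ×ˢ A, HasLineDerivAt ℂ (fun p => y p Q) (dfun v Q p) p v := by
      intro v Q p hp
      obtain ⟨-, y1, h2, h3⟩ := hy.2 p hp
      have h4 : y1 = y' p := low_unique ha (hX _ hp) h2 (hl _ hp)
      have h5 := h3 Q v
      rw [h4] at h5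
      exact h5
    have h1 : HasLineDerivAt ℂ (fun p : E × ℂ => ∑ k ∈ Finset.range (td P),
        (2 * Real.pi * Complex.I)⁻¹ *
          ∮ w in C(0, ρ), (w - p.2) ^ ((k : ℤ) - 1) * y (p.1, w) (tc P k))
        (∑ k ∈ Finset.range (td P), (2 * Real.pi * Complex.I)⁻¹ *
          ∮ w in C(0, ρ), (w - z) ^ ((k : ℤ) - 1) * (dfun (v.1, 0) (tc P k) (q, w) +
            v.2 * dfun (0, 1) (tc P k) (q, w))) (q, z) v := by
      unfold HasLineDerivAt
      refine HasDerivAt.fun_sum fun k _ => HasDerivAt.const_mul _ ?_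
      exact kernel_deriv hN hρ hA (j := fun p => y p (tc P k)) (hy.1 _) (hcd _ _) (hcd _ _)
        (hld _ _) (hld _ _) ((k : ℤ) - 1) hq hz
    have h2 : (∑ k ∈ Finset.range (td P), (2 * Real.pi * Complex.I)⁻¹ *
          ∮ w in C(0, ρ), (w - z) ^ ((k : ℤ) - 1) * (dfun (v.1, 0) (tc P k) (q, w) +
            v.2 * dfun (0, 1) (tc P k) (q, w))) =
        a * inn ρ y' (q, z) (pol (fderiv ℂ F (q, z) v) * P) := by
      have hcomb : ∀ Q w, dfun (v.1, 0) Q (q, w) + v.2 * dfun (0, 1) Q (q, w) = dfun v Q (q, w) := by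
        intro Q w
        have h3 : v = (v.1, (0 : ℂ)) + v.2 • ((0 : E), (1 : ℂ)) := by
          refine Prod.ext ?_ ?_
          · simp
          · simp
        have h4 : fderiv ℂ F (q, w) v = fderiv ℂ F (q, w) (v.1, 0) +
            v.2 • fderiv ℂ F (q, w) (0, 1) := by
          conv_lhs => rw [h3]
          rw [map_add, map_smul]
        simp only [hdfun]
        rw [h4, pol_add, pol_smul, add_mul, map_add, smul_mul_assoc, map_smul, smul_eq_mul]
        ring
      simp only [hcomb]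
      rw [inn_apply hρ hz (hyc' q hq), ← Finset.mul_sum, mul_left_comm,
        ← circleIntegral.integral_const_mul, ← circleIntegral.integral_fun_sum]
      · congr 1
        refine circleIntegral.integral_congr hρ.le fun w hw => ?_
        simp only [hdfun]
        have h5 : shift (w - z) (pol (fderiv ℂ F (q, z) v)) = pol (fderiv ℂ F (q, w) v) := by
          rw [fderiv_shift hFd hs, add_sub_cancel]
        rw [map_mul, h5]
        have h6 : y' (q, w) (pol (fderiv ℂ F (q, w) v) * shift (w - z) P) =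
            (y' (q, w) ∘ₗ LinearMap.mulLeft ℂ (pol (fderiv ℂ F (q, w) v))) (shift (w - z) P) := rfl
        rw [h6, map_shift, Finset.mul_sum, Finset.mul_sum]
        refine Finset.sum_congr rfl fun k _ => ?_
        rw [zpow_sub_one₀ (sub_ne hz hw), zpow_natCast]
        simp only [LinearMap.comp_apply, LinearMap.mulLeft_apply]
        ring
      · intro k _
        refine ContinuousOn.circleIntegrable hρ.le (ContinuousOn.mul ?_ ?_)
        · exact ContinuousOn.zpow₀ (by fun_prop) _ fun w hw => Or.inl (sub_ne hz hw)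
        · exact (hcd v _).comp (hc q) (hm q hq)
    rw [h2] at h1
    have h3 : HasDerivAt (fun t : ℂ => ∑ k ∈ Finset.range (td P),
        (2 * Real.pi * Complex.I)⁻¹ *
          ∮ w in C(0, ρ), (w - ((q, z) + t • v).2) ^ ((k : ℤ) - 1) *
            y (((q, z) + t • v).1, w) (tc P k))
        (a * inn ρ y' (q, z) (pol (fderiv ℂ F (q, z) v) * P)) 0 := h1
    refine HasDerivAt.congr_of_eventuallyEq h3 ?_
    have hcont : Tendsto (fun t : ℂ => (q, z) + t • v) (𝓝 0) (𝓝 (q, z)) := by
      have : Continuous fun t : ℂ => (q, z) + t • v := by fun_prop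
      simpa using this.tendsto 0
    filter_upwards [hcont.eventually ((hN.prod isOpen_ball).mem_nhds hp)] with t ht
    exact inn_sum hρ (hzρ ht.2) (hyc _ ht.1) P

end Main

end Pool.Agent.QC.An
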