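import Pool.Agent.QC.An.Iface
import Pool.Agent.QC.LS.Gauge

/-!
# MP_7c50a9_lc: the gauged local system `ULS`

`ULS` is `VLS` with the values `J` replaced by `J ∘ shift z`, that is `Q ↦ ∫ f ^ a Q / (x_n - z)`.
-/

set_option autoImplicit false

namespace Pool.Agent.QC

open MvPolynomial Filter Topology Set

variable {n l : ℕ}

theorem shift_shift (z z' : ℂ) (Q : Pol (n + 1)) : shift z (shift z' Q) = shift (z + z') Q := by
  have h : (shift z).comp (shift z') = (shift (z + z') : Pol (n + 1) →ₐ[ℂ] Pol (n + 1)) := by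
    refine MvPolynomial.algHom_ext fun i => ?_
    refine Fin.lastCases ?_ (fun j => ?_) i
    · simp [shift, add_assoc]
    · simp [shift]
  exact congrArg (fun φ : Pol (n + 1) →ₐ[ℂ] Pol (n + 1) => φ Q) h

theorem shift_zero (Q : Pol (n + 1)) : shift 0 Q = Q := by
  have h : shift 0 = AlgHom.id ℂ (Pol (n + 1)) := by
    refine MvPolynomial.algHom_ext fun i => ?_
    refine Fin.lastCases ?_ (fun j => ?_) i
    · simp [shift]
    · simp [shift]
  exact congrArg (fun φ : Pol (n + 1) →ₐ[ℂ] Pol (n + 1) => φ Q) h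

/-- `J ↦ J ∘ shift z`. -/
noncomputable def shE (n : ℕ) (z : ℂ) : Fnl (n + 1) ≃ₗ[ℂ] Fnl (n + 1) where
  toFun J := J ∘ₗ (shift z).toLinearMap
  invFun J := J ∘ₗ (shift (-z)).toLinearMap
  map_add' _ _ := rfl
  map_smul' _ _ := rfl
  left_inv J := by
    refine LinearMap.ext fun Q => ?_
    show J (shift z (shift (-z) Q)) = J Q
    rw [shift_shift, add_neg_cancel, shift_zero]
  right_inv J := by
    refine LinearMap.ext fun Q => ?_
    show J (shift (-z) (shift z Q)) = J Q
    rw [shift_shift, neg_add_cancel, shift_zero]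

@[simp] theorem shE_apply (z : ℂ) (J : Fnl (n + 1)) (Q : Pol (n + 1)) :
    shE n z J Q = J (shift z Q) := rfl

@[simp] theorem shE_symm_apply (z : ℂ) (J : Fnl (n + 1)) (Q : Pol (n + 1)) :
    (shE n z).symm J Q = J (shift (-z) Q) := rfl

/-- The coordinates. -/
noncomputable def evQ {m : ℕ} (Q : Pol m) : Fnl m →ₗ[ℂ] ℂ := LinearMap.applyₗ Q

@[simp] theorem evQ_apply {m : ℕ} (Q : Pol m) (J : Fnl m) : evQ Q J = J Q := rfl

theorem evQ_inj {m : ℕ} (J : Fnl m) (h : ∀ Q, evQ Q J = 0) : J = 0 :=
  LinearMap.ext fun Q => h Q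

/-- Functionals of shifted polynomials are differentiable. -/
theorem diffAt_shift {z : ℂ} {g : ℂ → ℂ} (hg : DifferentiableAt ℂ g z) (Q : Pol (n + 1)) :
    ∀ k : ℂ → Fnl (n + 1), (∀ P, DifferentiableAt ℂ (fun z' => k z' P) z) →
      DifferentiableAt ℂ (fun z' => k z' (shift (g z') Q)) z := by
  induction Q using MvPolynomial.induction_on with
  | C a =>
    intro k hk
    simp only [Loc.shift_C]
    exact hk _
  | add p q hp hq =>
    intro k hk
    simp only [map_add]
    exact (hp k hk).add (hq k hk)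
  | mul_X p i hp =>
    intro k hk
    simp only [map_mul]
    have h1 := hp (fun z' => k z' ∘ₗ LinearMap.mulRight ℂ (X i : Pol (n + 1))) fun P => hk _
    refine Fin.lastCases (motive := fun i => DifferentiableAt ℂ (fun z' =>
      k z' ∘ₗ LinearMap.mulRight ℂ (X i : Pol (n + 1)) <| shift (g z') p) z →
      DifferentiableAt ℂ (fun z' => k z' (shift (g z') p * shift (g z') (X i))) z)
      (fun h1 => ?_) (fun j h1 => ?_) i h1
    · simp only [Loc.shift_X_last, mul_add, map_add]
      refine h1.add ?_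
      have h2 : (fun z' => k z' (shift (g z') p * C (g z'))) =
          fun z' => g z' * k z' (shift (g z') p) := by
        funext z'
        rw [mul_comm, ← smul_eq_C_mul, map_smul, smul_eq_mul]
      rw [h2]
      exact hg.mul (hp k hk)
    · simp only [Loc.shift_X_castSucc]
      exact h1

variable (P : Prm)

/-- The gauged local system. -/
noncomputable def ULS (n l : ℕ) : LS (Tup n l × ℂ) (Fnl (n + 1)) :=
  (VLS P n l).gauge fun p => (shE n p.2).toEquiv

theorem ULS_lin : (ULS P n l).Lin := (VLS_lin P).gauge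

theorem mem_ULS_X {p : Tup n l × ℂ} :
    p ∈ (ULS P n l).X ↔ SingF (P.f p.1) = ∅ ∧ p.2 ∉ SigF (P.f p.1) :=
  mem_VLS_X P

variable {P} {T : Type*} [TopologicalSpace T] {h : T → Tup n l × ℂ} {S : Set T}

theorem ULS_par {u : T → Fnl (n + 1)} : (ULS P n l).Par h S u ↔
    (VLS P n l).Par h S (fun t => (shE n (h t).2).symm (u t)) :=
  LS.gauge_par

theorem ULS_par' {u : T → Fnl (n + 1)} :
    (ULS P n l).Par h S (fun t => shE n (h t).2 (u t)) ↔ (VLS P n l).Par h S u :=
  LS.gauge_par'

/-- Solutions are holomorphic in `z`. -/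
theorem ULS_diff {N : Set (Tup n l × ℂ)} {y : Tup n l × ℂ → Fnl (n + 1)}
    (hy : (ULS P n l).sol N y) {q : Tup n l} {z : ℂ} (hz : (q, z) ∈ N) (Q : Pol (n + 1)) :
    DifferentiableAt ℂ (fun z' => evQ Q (y (q, z'))) z := by
  have h1 : (VLS P n l).sol N (fun p => (shE n p.2).symm (y p)) := hy
  obtain ⟨-, -, h2⟩ := h1
  obtain ⟨-, y', -, h3⟩ := h2 _ hz
  set k : ℂ → Fnl (n + 1) := fun z' => (shE n z').symm (y (q, z')) with hk
  have h4 : ∀ R, DifferentiableAt ℂ (fun z' => k z' R) z := by
    intro R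
    have h5 := (h3 R ((0 : Tup n l), (1 : ℂ))).differentiableAt
    have h6 : DifferentiableAt ℂ (fun z' : ℂ => z' - z) z := differentiableAt_id.sub_const z
    have h7 : DifferentiableAt ℂ (fun t : ℂ => (fun p : Tup n l × ℂ => (shE n p.2).symm (y p) R)
        ((q, z) + t • ((0 : Tup n l), (1 : ℂ)))) (z - z) := by
      rw [sub_self]
      exact h5
    have h8 := h7.comp (f := fun z' : ℂ => z' - z) z h6
    have e : (fun z' => k z' R) = (fun t : ℂ => (fun p : Tup n l × ℂ =>
        (shE n p.2).symm (y p) R) ((q, z) + t • ((0 : Tup n l), (1 : ℂ)))) ∘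
        fun z' : ℂ => z' - z := by
      funext z'
      have : (q, z) + (z' - z) • ((0 : Tup n l), (1 : ℂ)) = (q, z') := by
        refine Prod.ext ?_ ?_
        · simp
        · simp
      simp only [Function.comp, this, hk]
    rw [e]
    exact h8
  have h9 := diffAt_shift (g := fun z' => z') differentiableAt_id Q k h4
  refine h9.congr_of_eventuallyEq (Eventually.of_forall fun z' => ?_)
  show y (q, z') Q = y (q, z') (shift (-z') (shift z' Q))
  rw [shift_shift, neg_add_cancel, shift_zero]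

end Pool.Agent.QC
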