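import Pool.Agent.QC.An.ULS
import Pool.Agent.QC.LS.Retract

/-!
# MP_7c50a9_lc: `ULS` near a simple critical value
-/

set_option autoImplicit false

namespace Pool.Agent.QC

open MvPolynomial Filter Topology Set Metric

variable {n l : ℕ} {P : Prm} {q : Tup n l}

/-- A single valued section on a punctured disc extends. -/
theorem VLS_fill {w : ℂ} (h : SimpleCV P q w) {r : ℝ} (hr : 0 < r) {K : ℂ → Fnl (n + 1)}
    (hK : (VLS P n l).Par (fun z => (q, z)) (ball w r \ {w}) K) :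
    ∃ H : ℂ → Fnl (n + 1), (∀ Q, DifferentiableOn ℂ (fun z => H z Q) (ball w r)) ∧
      EqOn H K (ball w r \ {w}) := by
  classical
  choose g hg1 hg2 using loc_single P h hr hK
  have hlim : ∀ Q, Tendsto (fun z => K z Q) (𝓝[≠] w) (𝓝 (g Q w)) := by
    intro Q
    have h1 : ContinuousAt (g Q) w :=
      ((hg1 Q).differentiableAt (ball_mem_nhds w hr)).continuousAt
    have h2 : Tendsto (g Q) (𝓝[≠] w) (𝓝 (g Q w)) := h1.tendsto.mono_left nhdsWithin_le_nhds
    refine h2.congr' ?_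
    have h3 : ball w r \ {w} ∈ 𝓝[≠] w := by
      rw [sdiff_eq]
      exact inter_mem (mem_nhdsWithin_of_mem_nhds (ball_mem_nhds w hr)) self_mem_nhdsWithin
    filter_upwards [h3] with z hz
    exact hg2 Q z hz.1 hz.2
  set L : Fnl (n + 1) :=
    { toFun := fun Q => g Q w
      map_add' := fun Q Q' => by
        refine tendsto_nhds_unique (hlim (Q + Q')) ?_
        simpa only [map_add] using (hlim Q).add (hlim Q')
      map_smul' := fun c Q => by
        refine tendsto_nhds_unique (hlim (c • Q)) ?_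
        simpa only [map_smul, RingHom.id_apply] using (hlim Q).const_smul c } with hL
  refine ⟨fun z => if z = w then L else K z, fun Q => ?_, fun z hz => ?_⟩
  · refine (hg1 Q).congr fun z hz => ?_
    by_cases hzw : z = w
    · simp only [hzw, if_true]
      rfl
    · simp only [hzw, if_false]
      exact (hg2 Q z hz hzw).symm
  · have : z ≠ w := hz.2
    simp only [this, if_false]

theorem ULS_fill {w : ℂ} (h : SimpleCV P q w) {r : ℝ} (hr : 0 < r) {K : ℂ → Fnl (n + 1)}
    (hK : (ULS P n l).Par (fun z => (q, z)) (ball w r \ {w}) K) :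
    ∃ H : ℂ → Fnl (n + 1), (∀ Q, DifferentiableOn ℂ (fun z => evQ Q (H z)) (ball w r)) ∧
      EqOn H K (ball w r \ {w}) := by
  obtain ⟨H, h1, h2⟩ := VLS_fill h hr (ULS_par.1 hK)
  refine ⟨fun z => shE n z (H z), fun Q z hz => ?_, fun z hz => ?_⟩
  · have h3 : ∀ R, DifferentiableAt ℂ (fun z' => H z' R) z := fun R =>
      (h1 R).differentiableAt (isOpen_ball.mem_nhds hz)
    exact (diffAt_shift (g := fun z' => z') differentiableAt_id Q H h3).differentiableWithinAt
  · show shE n z (H z) = K z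
    rw [h2 hz]
    exact (shE n z).apply_symm_apply _

/-- The half disc as a convex open set. -/
theorem isOpen_hDisc (w : ℂ) (r σ : ℝ) : IsOpen (hDisc w r σ) := by
  have h1 : IsOpen {z : ℂ | ‖z - w‖ < r} :=
    isOpen_lt (continuous_id.sub continuous_const).norm continuous_const
  have h2 : IsOpen {z : ℂ | 0 < σ * (z - w).im} :=
    isOpen_lt continuous_const (continuous_const.mul (Complex.continuous_im.comp
      (continuous_id.sub continuous_const)))
  exact h1.inter h2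

theorem convex_hDisc (w : ℂ) (r σ : ℝ) : Convex ℝ (hDisc w r σ) := by
  intro x hx y hy a b ha hb hab
  have e : a • x + b • y - w = a • (x - w) + b • (y - w) := by
    have : w = a • w + b • w := by rw [← add_smul, hab, one_smul]
    conv_lhs => rw [this]
    rw [smul_sub, smul_sub]
    abel
  constructor
  · have h1 : x - w ∈ ball (0 : ℂ) r := by simpa using hx.1
    have h2 : y - w ∈ ball (0 : ℂ) r := by simpa using hy.1
    have := convex_ball (0 : ℂ) r h1 h2 ha hb hab
    rw [← e] at this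
    simpa using this
  · rw [e]
    have h1 := hx.2
    have h2 := hy.2
    simp only [Complex.add_im, Complex.smul_im, smul_eq_mul]
    have h3 : σ * (a * (x - w).im + b * (y - w).im) =
        a * (σ * (x - w).im) + b * (σ * (y - w).im) := by ring
    rw [h3]
    rcases eq_or_lt_of_le ha with h0 | h0
    · have hb1 : b = 1 := by linarith
      rw [← h0, hb1]
      linarith
    · have := mul_pos h0 h1
      have := mul_nonneg hb h2.le
      linarith

/-- Extension from a small punctured disc to a bigger one. -/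
theorem par_punctured {E W : Type*} [TopologicalSpace E] {A : LS E W} {h : ℂ → E} {w : ℂ}
    {ρ ε : ℝ} (hρ : 0 < ρ) (hh : ContinuousOn h (ball w ε \ {w}))
    (hX : MapsTo h (ball w ε \ {w}) A.X) {u : ℂ → W}
    (hu : A.Par h (closedBall w ρ \ {w}) u) :
    ∃ u', A.Par h (ball w ε \ {w}) u' ∧
      ∀ z ∈ ball w ε \ {w}, z ∈ closedBall w ρ → u' z = u z := by
  set r : ℂ → ℂ := fun z => w + (min 1 (ρ / ‖z - w‖)) • (z - w) with hr
  have hne : ∀ z ∈ ball w ε \ {w}, 0 < ‖z - w‖ := fun z hz =>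
    norm_pos_iff.mpr (sub_ne_zero.mpr hz.2)
  have hc : ∀ z ∈ ball w ε \ {w}, 0 < min 1 (ρ / ‖z - w‖) := fun z hz =>
    lt_min one_pos (div_pos hρ (hne z hz))
  have hrw : ∀ z, r z - w = (min 1 (ρ / ‖z - w‖)) • (z - w) := fun z => by
    rw [hr]; ring
  have hcont : ContinuousOn r (ball w ε \ {w}) := by
    have h1 : ContinuousOn (fun z : ℂ => z - w) (ball w ε \ {w}) := by fun_prop
    have h2 : ContinuousOn (fun z : ℂ => min 1 (ρ / ‖z - w‖)) (ball w ε \ {w}) := by
      refine continuousOn_const.inf (continuousOn_const.div h1.norm fun z hz => (hne z hz).ne')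
    exact continuousOn_const.add (h2.smul h1)
  have hm : MapsTo r (ball w ε \ {w}) (closedBall w ρ \ {w}) := by
    intro z hz
    refine ⟨?_, fun h0 => ?_⟩
    · rw [mem_closedBall, dist_eq_norm, hrw, norm_smul, Real.norm_of_nonneg (hc z hz).le]
      calc min 1 (ρ / ‖z - w‖) * ‖z - w‖ ≤ ρ / ‖z - w‖ * ‖z - w‖ := by
            gcongr
            exact min_le_right _ _
        _ = ρ := div_mul_cancel₀ _ (hne z hz).ne'
    · rw [mem_singleton_iff, ← sub_eq_zero, hrw, smul_eq_zero] at h0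
      rcases h0 with h0 | h0
      · exact (hc z hz).ne' h0
      · exact (norm_pos_iff.mp (hne z hz)) h0
  have hseg : ∀ z ∈ ball w ε \ {w}, ∀ t ∈ Icc (0 : ℝ) 1,
      r z + t • (z - r z) ∈ ball w ε \ {w} := by
    intro z hz t ht
    set c := min 1 (ρ / ‖z - w‖) with hcdef
    have hc0 := hc z hz
    have e : r z + t • (z - r z) - w = (c + t * (1 - c)) • (z - w) := by
      have h3 := hrw z
      rw [← hcdef] at h3
      have h4 : z - r z = (1 - c) • (z - w) := by
        have : z - r z = (z - w) - (r z - w) := by ring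
        rw [this, h3, sub_smul, one_smul]
      rw [h4, show r z + t • (1 - c) • (z - w) - w = (r z - w) + t • (1 - c) • (z - w) by ring, h3,
        smul_smul, ← add_smul]
    have hc1 : c ≤ 1 := min_le_left _ _
    have hpos : 0 < c + t * (1 - c) := by
      have := mul_nonneg ht.1 (sub_nonneg.mpr hc1)
      linarith
    have hle : c + t * (1 - c) ≤ 1 := by
      nlinarith [ht.2, ht.1]
    refine ⟨?_, fun h0 => ?_⟩
    · rw [mem_ball, dist_eq_norm, e, norm_smul, Real.norm_of_nonneg hpos.le]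
      have h3 : ‖z - w‖ < ε := by simpa [dist_eq_norm] using hz.1
      calc (c + t * (1 - c)) * ‖z - w‖ ≤ 1 * ‖z - w‖ := by gcongr
        _ < ε := by linarith
    · rw [mem_singleton_iff, ← sub_eq_zero, e, smul_eq_zero] at h0
      rcases h0 with h0 | h0
      · exact hpos.ne' h0
      · exact (norm_pos_iff.mp (hne z hz)) h0
  obtain ⟨u', h1, h2⟩ := LS.Par.retract hcont hm hseg hh hX hu
  refine ⟨u', h1, fun z hz hz' => h2 z hz ?_⟩
  have h3 : 1 ≤ ρ / ‖z - w‖ := by
    rw [one_le_div (hne z hz)]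
    simpa [dist_eq_norm] using hz'
  rw [hr]
  simp only [min_eq_left h3, one_smul]
  ring

/-- Rank one. -/
theorem VLS_rank1 {w : ℂ} (h : SimpleCV P q w) {ε : ℝ} (hε : 0 < ε)
    (hX : ∀ z ∈ ball w ε, z ≠ w → (q, z) ∈ (VLS P n l).X) {V : Set ℂ} (hV : IsOpen V)
    (hVc : Convex ℝ V) (hVb : V ⊆ ball w ε) (hwV : w ∉ V) (hne : V.Nonempty)
    {K K' : ℂ → Fnl (n + 1)} (hK : (VLS P n l).Par (fun z => (q, z)) V K)
    (hK' : (VLS P n l).Par (fun z => (q, z)) V K') :
    ∃ a b : ℂ, (a ≠ 0 ∨ b ≠ 0) ∧ ∃ k, (VLS P n l).Par (fun z => (q, z)) (ball w ε \ {w}) k ∧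
      EqOn k (a • K + b • K') V := by
  obtain ⟨r₀, hr₀, -, U, -, -, -, hdec⟩ := loc_form P h
  have hcm : ∀ S : Set ℂ, ContinuousOn (fun z : ℂ => (q, z)) S := fun S => by fun_prop
  -- a half disc which meets `V`
  obtain ⟨σ, hσ, z₁, hz₁V, hz₁⟩ : ∃ σ : ℝ, (σ = 1 ∨ σ = -1) ∧ ∃ z₁ ∈ V, 0 < σ * (z₁ - w).im := by
    obtain ⟨z, hz⟩ := hne
    obtain ⟨δ, hδ, hb⟩ := Metric.isOpen_iff.mp hV z hz
    rcases lt_trichotomy (z - w).im 0 with h1 | h1 | h1
    · exact ⟨-1, Or.inr rfl, z, hz, by linarith⟩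
    · refine ⟨1, Or.inl rfl, z + (δ / 2 : ℝ) * Complex.I, hb ?_, ?_⟩
      · rw [mem_ball, dist_eq_norm, add_sub_cancel_left, norm_mul, Complex.norm_real,
          Complex.norm_I, mul_one, Real.norm_of_nonneg (by linarith)]
        linarith
      · have : (z + (δ / 2 : ℝ) * Complex.I - w).im = (z - w).im + δ / 2 := by
          simp only [Complex.sub_im, Complex.add_im, Complex.mul_im, Complex.ofReal_re,
            Complex.I_im, Complex.ofReal_im, Complex.I_re]
          ring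
        rw [this, h1]
        linarith
    · exact ⟨1, Or.inl rfl, z, hz, by linarith⟩
  set D := hDisc w ε σ with hD
  have hDb : D ⊆ ball w ε \ {w} := by
    intro z hz
    refine ⟨by simpa [dist_eq_norm] using hz.1, fun h0 => ?_⟩
    rw [mem_singleton_iff] at h0
    have := hz.2
    rw [h0, sub_self, Complex.zero_im, mul_zero] at this
    exact lt_irrefl _ this
  have hDX : MapsTo (fun z => (q, z)) D (VLS P n l).X := fun z hz => hX z (hDb hz).1 (hDb hz).2
  have hVX : MapsTo (fun z => (q, z)) V (VLS P n l).X := fun z hz =>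
    hX z (hVb hz) fun h0 => hwV (h0 ▸ hz)
  have hz₁D : z₁ ∈ D := ⟨by simpa [dist_eq_norm] using hVb hz₁V, hz₁⟩
  have hDc : Convex ℝ D := convex_hDisc w ε σ
  -- extension of a section on `V` to `D`
  have hext : ∀ K : ℂ → Fnl (n + 1), (VLS P n l).Par (fun z => (q, z)) V K →
      ∃ K₁, (VLS P n l).Par (fun z => (q, z)) D K₁ ∧ K₁ z₁ = K z₁ := fun K hK =>
    LS.Par.exists_star (hDc.starConvex hz₁D) hz₁D (hcm D) hDX (hK.mem hz₁V)
  obtain ⟨K₁, hK₁, he₁⟩ := hext K hK
  obtain ⟨K₁', hK₁', he₁'⟩ := hext K' hK'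
  set r := min ε r₀ with hr
  have hr0 : 0 < r := lt_min hε hr₀
  have hsub : hDisc w r σ ⊆ D := fun z hz => ⟨lt_of_lt_of_le hz.1 (min_le_left _ _), hz.2⟩
  obtain ⟨c, H, -, hH, hdc⟩ := hdec σ hσ K₁ r hr0 (min_le_right _ _) (hK₁.mono hsub)
  obtain ⟨c', H', -, hH', hdc'⟩ := hdec σ hσ K₁' r hr0 (min_le_right _ _) (hK₁'.mono hsub)
  obtain ⟨a, b, hab, hzab⟩ : ∃ a b : ℂ, (a ≠ 0 ∨ b ≠ 0) ∧ a * c + b * c' = 0 := by
    by_cases hc : c = 0
    · exact ⟨1, 0, Or.inl one_ne_zero, by rw [hc]; ring⟩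
    · exact ⟨c', -c, Or.inr (neg_ne_zero.mpr hc), by ring⟩
  have hlin := VLS_lin P (n := n) (l := l)
  have hcomb : ∀ {S : Set ℂ} {u u' : ℂ → Fnl (n + 1)}, (VLS P n l).Par (fun z => (q, z)) S u →
      (VLS P n l).Par (fun z => (q, z)) S u' →
      (VLS P n l).Par (fun z => (q, z)) S (a • u + b • u') := fun {S} _ _ h1 h2 =>
    LS.Par.add hlin (hcm S) (LS.Par.smul hlin a h1) (LS.Par.smul hlin b h2)
  have hk0 := hcomb hH hH'
  set ρ := r / 2 with hρ
  have hcb : closedBall w ρ \ {w} ⊆ ball w r \ {w} :=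
    sdiff_subset_sdiff_left (closedBall_subset_ball (by rw [hρ]; linarith))
  obtain ⟨k, hk, hkeq⟩ := par_punctured (A := VLS P n l) (h := fun z => (q, z)) (w := w) (ρ := ρ)
    (ε := ε) (by positivity) (hcm _) (fun z hz => hX z hz.1 hz.2) (hk0.mono hcb)
  refine ⟨a, b, hab, k, hk, ?_⟩
  -- agreement on the small half disc
  have hsm : ∀ z ∈ hDisc w ρ σ, k z = (a • K₁ + b • K₁') z := by
    intro z hz
    have hzr : z ∈ hDisc w r σ := ⟨lt_trans hz.1 (by rw [hρ]; linarith), hz.2⟩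
    have hzD := hsub hzr
    rw [hkeq z (hDb hzD) (by
      rw [mem_closedBall, dist_eq_norm]; exact hz.1.le)]
    simp only [Pi.add_apply, Pi.smul_apply]
    rw [hdc z hzr, hdc' z hzr, smul_add, smul_add, smul_smul, smul_smul]
    have : a • H z + (a * (c * (z - w) ^ ((P.s n : ℝ) : ℂ))) • U z +
        (b • H' z + (b * (c' * (z - w) ^ ((P.s n : ℝ) : ℂ))) • U z) =
        a • H z + b • H' z + ((a * c + b * c') * (z - w) ^ ((P.s n : ℝ) : ℂ)) • U z := by
      rw [add_mul, add_smul]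
      rw [mul_assoc, mul_assoc]
      abel
    rw [this, hzab, zero_mul, zero_smul, add_zero]
  obtain ⟨z₂, hz₂⟩ : (hDisc w ρ σ).Nonempty := by
    refine ⟨w + (σ * (ρ / 2) : ℝ) * Complex.I, ?_, ?_⟩
    · rw [add_sub_cancel_left, norm_mul, Complex.norm_I, mul_one, Complex.norm_real,
        Real.norm_eq_abs, abs_mul, abs_of_nonneg (by positivity : 0 ≤ ρ / 2)]
      have : |σ| = 1 := by rcases hσ with h1 | h1 <;> rw [h1] <;> simp
      rw [this, one_mul]
      have : 0 < ρ := by positivity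
      linarith
    · have : (w + (σ * (ρ / 2) : ℝ) * Complex.I - w).im = σ * (ρ / 2) := by
        rw [add_sub_cancel_left, Complex.mul_im, Complex.ofReal_re, Complex.ofReal_im,
          Complex.I_im, Complex.I_re, mul_one, zero_mul, add_zero]
      rw [this]
      have : σ * (σ * (ρ / 2)) = ρ / 2 := by
        rcases hσ with h1 | h1 <;> rw [h1] <;> ring
      rw [this]
      positivity
  have hz₂D : z₂ ∈ D := hsub ⟨lt_trans hz₂.1 (by rw [hρ]; linarith), hz₂.2⟩
  have hDeq := LS.Par.unique hDc.isPreconnected (hcm D) hDX (hk.mono hDb) (hcomb hK₁ hK₁')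
    hz₂D (hsm z₂ hz₂)
  have hVw : V ⊆ ball w ε \ {w} := fun z hz => ⟨hVb hz, fun h0 => hwV (by
    rw [mem_singleton_iff] at h0
    rwa [h0] at hz)⟩
  refine LS.Par.unique hVc.isPreconnected (hcm V) hVX (hk.mono hVw) (hcomb hK hK') hz₁V ?_
  rw [hDeq hz₁D]
  simp only [Pi.add_apply, Pi.smul_apply, he₁, he₁']

/-- Rank one, in the form used by `PlaneData`. -/
theorem ULS_rank1 {w : ℂ} (h : SimpleCV P q w) {ε : ℝ} (hε : 0 < ε)
    (hX : ∀ z ∈ ball w ε, z ≠ w → (q, z) ∈ (ULS P n l).X) {V : Set ℂ} (hV : IsOpen V)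
    (hVc : Convex ℝ V) (hVb : V ⊆ ball w ε) (hwV : w ∉ V) (hne : V.Nonempty)
    {K K' : ℂ → Fnl (n + 1)} (hK : (ULS P n l).Par (fun z => (q, z)) V K)
    (hK' : (ULS P n l).Par (fun z => (q, z)) V K') :
    ∃ a b : ℂ, (a ≠ 0 ∨ b ≠ 0) ∧ ∃ k, (∀ Q, DifferentiableOn ℂ (fun z => evQ Q (k z)) (ball w ε)) ∧
      (ULS P n l).Par (fun z => (q, z)) (ball w ε \ {w}) k ∧
      EqOn k (fun z => a • K z + b • K' z) V := by
  obtain ⟨a, b, hab, k, hk, hkeq⟩ := VLS_rank1 h hε hX hV hVc hVb hwV hne (ULS_par.1 hK)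
    (ULS_par.1 hK')
  have hk' : (ULS P n l).Par (fun z => (q, z)) (ball w ε \ {w}) (fun z => shE n z (k z)) :=
    ULS_par'.2 hk
  obtain ⟨H, h1, h2⟩ := ULS_fill h hε hk'
  refine ⟨a, b, hab, H, h1, hk'.congr h2.symm, fun z hz => ?_⟩
  have hzw : z ∈ ball w ε \ {w} := ⟨hVb hz, fun h0 => hwV (by
    rw [mem_singleton_iff] at h0
    rwa [h0] at hz)⟩
  rw [h2 hzw]
  show shE n z (k z) = a • K z + b • K' z
  rw [hkeq hz]
  simp only [Pi.add_apply, Pi.smul_apply, map_add, map_smul]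
  rw [(shE n z).apply_symm_apply, (shE n z).apply_symm_apply]

end Pool.Agent.QC
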